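import Pool.Agent.H55.Cos2.Stmts

/-!
Modules TCON, NBH, ACTA, ACTB, ACTC.
-/

namespace Pool.Agent.H55.Cos2

open Set Filter Topology

theorem cos_tcon : TCONStmt := by
  intro Y _ _ S y hy
  by_cases h : ∀ k, ∃ s : List ℕ, k ≤ s.length ∧ y ∈ S.C s
  · rw [Metric.continuousAt_iff']
    intro ε hε
    obtain ⟨k, hk⟩ := exists_pow_lt_of_lt_one hε (by norm_num : (1 / 2 : ℝ) < 1)
    obtain ⟨s, hs, hys⟩ := h k
    filter_upwards [(S.clopen s).2.mem_nhds hys] with z hz
    have h1 := S.f_close hz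
    have h2 := S.f_close hys
    have h3 : (1 / 2 : ℝ) ^ s.length ≤ (1 / 2) ^ k :=
      pow_le_pow_of_le_one (by norm_num) (by norm_num) hs
    have h4 : (1 / 2 : ℝ) ^ (s.length + 1) = (1 / 2) ^ s.length / 2 := by
      rw [pow_succ]; ring
    rw [h4] at h1 h2
    rw [abs_le] at h1 h2
    rw [Real.dist_eq, abs_lt]
    constructor <;> linarith [h1.1, h1.2, h2.1, h2.2]
  · push Not at h
    obtain ⟨k, hk⟩ := h
    have : ∃ s, y ∈ S.C s ∧ ∀ n, y ∉ S.C (n :: s) := by
      by_contra hcon
      push Not at hcon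
      have : ∀ j, ∃ s : List ℕ, s.length = j ∧ y ∈ S.C s := by
        intro j
        induction j with
        | zero => exact ⟨[], rfl, by rw [S.C_nil]; trivial⟩
        | succ j ih =>
          obtain ⟨s, h1, h2⟩ := ih
          obtain ⟨n, hn⟩ := hcon s h2
          exact ⟨n :: s, by simp [h1], hn⟩
      obtain ⟨s, h1, h2⟩ := this k
      exact hk s h1.ge h2
    obtain ⟨s, hys, hno⟩ := this
    obtain ⟨N1, N2, hN1, hN2, h1, h2, hd⟩ := t2_separation (hy s).symm
    have h3 := S.conv s N1 (hN1.mem_nhds h1)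
    rw [eventually_atTop] at h3
    obtain ⟨N, hN⟩ := h3
    have h4 : S.C s ∩ N2 ∩ ⋂ n ∈ Finset.range N, (S.C (n :: s))ᶜ ∈ 𝓝 y := by
      refine Filter.inter_mem (Filter.inter_mem ((S.clopen s).2.mem_nhds hys) (hN2.mem_nhds h2)) ?_
      rw [Filter.biInter_finset_mem]
      intro n _
      exact (S.clopen _).compl.2.mem_nhds (hno n)
    have h5 : S.f =ᶠ[𝓝 y] fun _ => val s := by
      filter_upwards [h4] with z hz
      refine S.f_eq hz.1.1 fun n hn => ?_
      by_cases hnN : n < N
      · have h6 := hz.2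
        rw [Set.mem_iInter₂] at h6
        exact h6 n (Finset.mem_range.mpr hnN) hn
      · exact Set.disjoint_left.mp hd (hN n (by omega) hn) hz.1.2
    exact continuousAt_const.congr h5.symm

theorem cos_nbh : NBHStmt := by
  classical
  intro I U hU z hz
  let G : Filter XX :=
    { sets := {U | ∃ O ∈ 𝓝 z, ∃ η : ℝ, 0 < η ∧ ∃ s : Finset Idx,
        (∀ i ∈ s, i ∈ I ∧ ¬ ContinuousAt (phi i) z) ∧
        ∀ z' ∈ O, (∀ i ∈ s, |phi i z' - phi i z| < η) → z' ∈ U}
      univ_sets := ⟨univ, univ_mem, 1, one_pos, ∅, by simp, fun _ _ _ => trivial⟩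
      sets_of_superset := by
        rintro U1 U2 ⟨O, hO, η, hη, s, hs, h⟩ hsub
        exact ⟨O, hO, η, hη, s, hs, fun z' h1 h2 => hsub (h z' h1 h2)⟩
      inter_sets := by
        rintro U1 U2 ⟨O, hO, η, hη, s, hs, h⟩ ⟨O', hO', η', hη', s', hs', h'⟩
        refine ⟨O ∩ O', inter_mem hO hO', min η η', lt_min hη hη', s ∪ s', ?_, ?_⟩
        · intro i hi
          rcases Finset.mem_union.mp hi with hi | hi
          · exact hs i hi
          · exact hs' i hi
        · intro z' h1 h2
          exact ⟨h z' h1.1 fun i hi => (h2 i (Finset.mem_union_left _ hi)).trans_le (min_le_left _ _),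
            h' z' h1.2 fun i hi => (h2 i (Finset.mem_union_right _ hi)).trans_le (min_le_right _ _)⟩ }
  have h1 : @nhds XX (tau I) z = 𝓝 z ⊓ ⨅ i ∈ I, comap (phi i) (𝓝 (phi i z)) := by
    unfold tau
    rw [nhds_inf, nhds_iInf]
    simp only [nhds_iInf, nhds_induced]
  have h2 : G ≤ @nhds XX (tau I) z := by
    rw [h1]
    refine le_inf ?_ (le_iInf₂ fun i hi => ?_)
    · intro O hO
      exact ⟨O, hO, 1, one_pos, ∅, by simp, fun z' h _ => h⟩
    · intro T hT
      rw [mem_comap] at hT
      obtain ⟨T', hT', hsub⟩ := hT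
      by_cases hc : ContinuousAt (phi i) z
      · exact ⟨phi i ⁻¹' T', hc hT', 1, one_pos, ∅, by simp, fun z' h _ => hsub h⟩
      · obtain ⟨ε, hε, hb⟩ := Metric.mem_nhds_iff.mp hT'
        refine ⟨univ, univ_mem, ε, hε, {i}, by simpa using ⟨hi, hc⟩, fun z' _ h => hsub (hb ?_)⟩
        rw [Metric.mem_ball, Real.dist_eq]
        exact h i (by simp)
  exact h2 ((@IsOpen.mem_nhds_iff XX (tau I) z U hU).mpr hz)

theorem cos_acta (h : TCONStmt) : ACTAStmt := by
  constructor
  · intro z hz
    have h1 : ContinuousAt gg (xc z) := h Cant canon (xc z) fun s hs => not_inf_nd s (by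
      have h3 : xc z = nd s := hs
      rw [← h3]; exact hz)
    have h2 : Continuous xc := by unfold xc; fun_prop
    exact ContinuousAt.comp (f := xc) (g := gg) h1 h2.continuousAt
  · intro z hz
    have h1 : ContinuousAt gg (yc z) := h Cant canon (yc z) fun s hs => not_inf_nd s (by
      have h3 : yc z = nd s := hs
      rw [← h3]; exact hz)
    have h2 : Continuous yc := by unfold yc; fun_prop
    exact ContinuousAt.comp (f := yc) (g := gg) h1 h2.continuousAt

theorem cos_actb (h : TCONStmt) : ACTBStmt := by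
  intro c z hz
  unfold fc
  by_cases hS : ∃ S : TreeSys XX, GoodTree c (Ucode c) (Vcode c) S
  · rw [dif_pos hS]
    have hg := hS.choose_spec
    refine h XX hS.choose z fun s hs => ?_
    rcases hz with hz | hz | hz | hz
    · exact hg.levfin s (hs ▸ hz)
    · exact hz (hs ▸ hg.xinf s)
    · exact hz (hs ▸ hg.yinf s)
    · exact hz (hs ▸ hg.tag s)
  · rw [dif_neg hS]
    exact continuousAt_const

theorem cos_actc (h : TCONStmt) : ACTCStmt := by
  intro c k z hz
  unfold fc
  by_cases hS : ∃ S : TreeSys XX, GoodTree c (Ucode c) (Vcode c) S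
  · rw [dif_pos hS]
    have hg := hS.choose_spec
    set S := hS.choose with hSdef
    by_cases hn : ∀ s, z ≠ S.w s
    · exact (h XX S z hn).continuousWithinAt
    · push Not at hn
      obtain ⟨s, rfl⟩ := hn
      obtain ⟨N, hN⟩ := eventually_atTop.mp (hg.lev s k)
      have h4 : S.C s ∩ ⋂ n ∈ Finset.range N, (S.C (n :: s))ᶜ ∈ 𝓝 (S.w s) := by
        refine Filter.inter_mem ((S.clopen s).2.mem_nhds (S.w_mem s)) ?_
        rw [Filter.biInter_finset_mem]
        intro n _
        exact (S.clopen _).compl.2.mem_nhds (S.w_not n s)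
      have h5 : S.f =ᶠ[𝓝[FF k] (S.w s)] fun _ => val s := by
        filter_upwards [mem_nhdsWithin_of_mem_nhds h4, self_mem_nhdsWithin] with z' hz' hF
        refine S.f_eq hz'.1 fun n hn => ?_
        by_cases hnN : n < N
        · have h6 := hz'.2
          rw [Set.mem_iInter₂] at h6
          exact h6 n (Finset.mem_range.mpr hnN) hn
        · exact Set.disjoint_left.mp (hN n (by omega)) hn hF
      exact (continuousWithinAt_const (b := val s)).congr_of_eventuallyEq h5 (S.f_node s)
  · rw [dif_neg hS]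
    exact continuousWithinAt_const

end Pool.Agent.H55.Cos2
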