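import Pool.Agent.H55.Cos2.Stmts

/-!
Modules CAN1 - CAN7: the canonical tree system on the Cantor space.
-/

namespace Pool.Agent.H55.Cos2

open Set Filter Topology

theorem can_code : ∀ (m : ℕ) (x : Cant), (∀ n, m ≤ n → x n = false) → ∃ s, x = nd s ∧ pos s ≤ m := by
  intro m
  induction m with
  | zero =>
    intro x hx
    refine ⟨[], ?_, le_refl _⟩
    funext i
    exact hx i (Nat.zero_le _)
  | succ m ih =>
    intro x hx
    by_cases hm : x m = true
    · obtain ⟨s, hs, hp⟩ := ih (Function.update x m false) (by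
        intro n hn
        by_cases h : n = m
        · subst h; simp
        · rw [Function.update_of_ne h]; exact hx n (by omega))
      refine ⟨(m - pos s) :: s, ?_, ?_⟩
      · have h1 : pos s + (m - pos s) = m := by omega
        simp only [nd, h1, ← hs, Function.update_idem]
        rw [← hm, Function.update_eq_self]
      · simp only [pos]; omega
    · obtain ⟨s, hs, hp⟩ := ih x (by
        intro n hn
        by_cases h : n = m
        · subst h; simpa using hm
        · exact hx n (by omega))
      exact ⟨s, hs, by omega⟩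

theorem cos_can1 : CAN1Stmt := by
  intro x
  by_cases h : Inf x
  · exact Or.inl h
  · right
    unfold Inf at h
    push Not at h
    obtain ⟨m, hm⟩ := h
    obtain ⟨s, hs, _⟩ := can_code m x (fun n hn => by simpa using hm n hn)
    exact ⟨s, hs⟩

theorem len_le_pos : ∀ s : List ℕ, s.length ≤ pos s
  | [] => le_refl _
  | (n :: s) => by
    have := len_le_pos s
    simp only [pos, List.length_cons]; omega

theorem can_next {x : Cant} (hx : Inf x) {s : List ℕ} (hs : x ∈ canon.C s) :
    ∃ n, x ∈ canon.C (n :: s) := by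
  classical
  have h := hx (pos s)
  obtain ⟨h1, h2⟩ := Nat.find_spec h
  refine ⟨Nat.find h - pos s, ?_⟩
  have h3 : pos s + (Nat.find h - pos s) = Nat.find h := by omega
  intro i hi
  simp only [pos, h3] at hi
  rcases lt_or_ge i (Nat.find h) with h4 | h4
  · rw [nd_cons_lt _ _ (by omega)]
    rcases lt_or_ge i (pos s) with h5 | h5
    · exact hs i h5
    · rw [nd_ge s i h5]
      have h6 := Nat.find_min h h4
      simp only [not_and] at h6
      simpa using h6 h5
  · have h5 : i = Nat.find h := by omega
    have h6 := nd_cons_eq (Nat.find h - pos s) s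
    rw [h3] at h6
    rw [h5, h6]; exact h2

theorem can_levels {x : Cant} (hx : Inf x) : ∀ k : ℕ, ∃ s : List ℕ, s.length = k ∧ x ∈ canon.C s
  | 0 => ⟨[], rfl, by rw [canon.C_nil]; trivial⟩
  | (k + 1) => by
    obtain ⟨s, hs, h⟩ := can_levels hx k
    obtain ⟨n, hn⟩ := can_next hx h
    exact ⟨n :: s, by simp [hs], hn⟩

theorem cos_can2 : CAN2Stmt := by
  intro x hx
  refine ⟨can_levels hx, ?_⟩
  intro O hO k
  obtain ⟨N, hN⟩ := exists_agree hO
  obtain ⟨s, hs, h⟩ := can_levels hx (max k N)
  refine ⟨s, by rw [hs]; exact le_max_left _ _, h, ?_⟩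
  intro y hy
  refine hN fun i hi => ?_
  have h1 : i < pos s := by
    have := len_le_pos s
    have := le_max_right k N
    omega
  rw [hy i h1, h i h1]

theorem cos_can3 : CAN3Stmt := by
  intro O hO hne
  obtain ⟨a, ha⟩ := hne
  obtain ⟨N, hN⟩ := exists_agree (hO.mem_nhds ha)
  obtain ⟨s, hs, hp⟩ := can_code (N + 1) (fun i => if i < N then a i else decide (i = N)) (by
    intro n hn
    show (if n < N then a n else decide (n = N)) = false
    rw [if_neg (by omega)]
    simp; omega)
  have h1 : N < pos s := by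
    by_contra hc
    have h2 := nd_ge s N (by omega)
    rw [← hs] at h2
    simp at h2
  refine ⟨s, fun y hy => hN fun i hi => ?_⟩
  rw [hy i (by omega), ← hs]
  show (if i < N then a i else decide (i = N)) = a i
  rw [if_pos hi]

/-- an infinite set in every cell -/
theorem can_inf_mem (s : List ℕ) : ∃ x ∈ canon.C s, Inf x := by
  refine ⟨fun i => if i < pos s then nd s i else true, ?_, ?_⟩
  · intro i hi
    show (if i < pos s then nd s i else true) = nd s i
    rw [if_pos hi]
  · intro m
    refine ⟨max m (pos s), le_max_left _ _, ?_⟩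
    show (if max m (pos s) < pos s then nd s (max m (pos s)) else true) = true
    rw [if_neg (not_lt.mpr (le_max_right _ _))]

theorem cos_can4 : CAN4Stmt := by
  intro s N hN η hη
  obtain ⟨j, hj⟩ := exists_pow_lt_of_lt_one (half_pos hη) (by norm_num : (1 / 2 : ℝ) < 1)
  have h1 := canon.conv s N hN
  rw [eventually_atTop] at h1
  obtain ⟨n0, hn0⟩ := h1
  have h2 := hn0 (2 * n0) (by omega)
  obtain ⟨x, hx, hinf⟩ := can_inf_mem (List.replicate j 1 ++ (2 * n0) :: s)
  refine ⟨x, h2 (canon.sub_append _ _ hx), hinf, ?_⟩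
  have h3 := canon.f_close hx
  have h4 : val (List.replicate j 1 ++ (2 * n0) :: s) = val s + (1 / 2) ^ (s.length + 2 + j) := by
    rw [val_low]
    simp only [val, List.length_cons]
    rw [(even_two_mul n0).neg_one_pow]
    have : s.length + 1 + 1 = s.length + 2 := rfl
    rw [this]; ring
  have h5 : (1 / 2 : ℝ) ^ (s.length + 2 + j) ≤ (1 / 2) ^ j :=
    pow_le_pow_of_le_one (by norm_num) (by norm_num) (by omega)
  have h6 : (1 / 2 : ℝ) ^ ((List.replicate j 1 ++ (2 * n0) :: s).length + 1) ≤ (1 / 2) ^ j :=
    pow_le_pow_of_le_one (by norm_num) (by norm_num) (by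
      simp only [List.length_append, List.length_replicate]; omega)
  have h7 : (0 : ℝ) < (1 / 2) ^ (s.length + 2 + j) := by positivity
  rw [h4] at h3
  show |canon.f x - val s| < η
  rw [abs_le] at h3
  rw [abs_lt]
  constructor <;> linarith [h3.1, h3.2]

theorem cos_can5 : CAN5Stmt := by
  intro W hW hD s
  have hE : ∀ m : ℕ, IsOpen {x : Cant | ∃ n, m ≤ n ∧ x n = true} := by
    intro m
    have : {x : Cant | ∃ n, m ≤ n ∧ x n = true} = ⋃ n ∈ {n : ℕ | m ≤ n}, {x : Cant | x n = true} := by
      ext x; simp
    rw [this]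
    refine isOpen_biUnion fun n _ => ?_
    have : {x : Cant | x n = true} = (fun x : Cant => x n) ⁻¹' {true} := by ext x; simp
    rw [this]
    exact (isOpen_discrete _).preimage (continuous_apply n)
  have hEd : ∀ m : ℕ, Dense {x : Cant | ∃ n, m ≤ n ∧ x n = true} := by
    intro m
    rw [dense_iff_inter_open]
    rintro U hU ⟨a, ha⟩
    obtain ⟨N, hN⟩ := exists_agree (hU.mem_nhds ha)
    refine ⟨fun i => if i < N then a i else true, hN fun i hi => ?_, max m N, le_max_left _ _, ?_⟩
    · show (if i < N then a i else true) = a i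
      rw [if_pos hi]
    · show (if max m N < N then a (max m N) else true) = true
      rw [if_neg (not_lt.mpr (le_max_right _ _))]
  have h1 : Dense (⋂ n, W n) := dense_iInter_of_isOpen_nat hW hD
  have h2 : Dense (⋂ m : ℕ, {x : Cant | ∃ n, m ≤ n ∧ x n = true}) := dense_iInter_of_isOpen_nat hE hEd
  have h3 : Dense (⋂ i : ℕ ⊕ ℕ, Sum.elim W (fun m : ℕ => {x : Cant | ∃ n, m ≤ n ∧ x n = true}) i) := by
    refine dense_iInter_of_isOpen (fun i => ?_) (fun i => ?_)
    · cases i with
      | inl n => exact hW n
      | inr m => exact hE m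
    · cases i with
      | inl n => exact hD n
      | inr m => exact hEd m
  obtain ⟨x, hx1, hx2⟩ := (dense_iff_inter_open.mp h3) (canon.C s) (canon.clopen s).2 ⟨_, canon.w_mem s⟩
  rw [Set.mem_iInter] at hx2
  exact ⟨x, hx1, fun m => hx2 (Sum.inr m), fun n => hx2 (Sum.inl n)⟩

theorem GE_anti : ∀ k, GE (k + 1) ⊆ GE k := by
  rintro k x ⟨s, hs, hx⟩
  cases s with
  | nil => simp at hs
  | cons n s => exact ⟨s, by simpa using hs, canon.sub n s hx⟩

theorem GE_anti_le {k m : ℕ} (h : k ≤ m) : GE m ⊆ GE k := by
  induction m, h using Nat.le_induction with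
  | base => exact subset_rfl
  | succ m _ ih => exact (GE_anti m).trans ih

theorem cos_can6 : CAN6Stmt := by
  refine ⟨?_, ?_, GE_anti⟩
  · intro k
    have : GE k = ⋃ s ∈ {s : List ℕ | s.length = k}, canon.C s := by
      ext x; simp [GE]
    rw [this]
    exact isOpen_biUnion fun s _ => (canon.clopen s).2
  · intro x
    constructor
    · intro h k
      exact can_levels h k
    · intro h m
      obtain ⟨s, hs, hx⟩ := h (m + 1)
      cases s with
      | nil => simp at hs
      | cons n s =>
        have h1 : s.length = m := by simpa using hs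
        have h2 := len_le_pos s
        refine ⟨pos s + n, by omega, ?_⟩
        rw [hx (pos s + n) (by simp only [pos]; omega), nd_cons_eq]

theorem cos_can7 : CAN7Stmt := by
  intro l hl N hN k
  rcases cos_can1 l with h | ⟨s, rfl⟩
  · exact absurd h hl
  obtain ⟨n, hn⟩ := (canon.conv s N hN).exists
  refine ⟨nd (List.replicate k 0 ++ n :: s), hn (canon.sub_append _ _ (canon.w_mem _)),
    not_inf_nd _, ?_⟩
  refine GE_anti_le (m := (List.replicate k 0 ++ n :: s).length) (by simp) ?_
  exact ⟨_, rfl, canon.w_mem _⟩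

end Pool.Agent.H55.Cos2
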