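import Pool.Agent.H55.Cos2.Stmts

/-!
Module COD: codes of pairs of sets, with tags in any open set.
-/

namespace Pool.Agent.H55.Cos2

open Set Filter Topology

theorem dm_spec (b : Cant) (O : Set Cant) (hO : IsOpen O) (hne : O.Nonempty) :
    ∃ c ∈ O, dm c = b := by
  classical
  obtain ⟨a, ha⟩ := hne
  obtain ⟨N, hN⟩ := exists_agree (hO.mem_nhds ha)
  refine ⟨fun j => if j < N then a j else b (Nat.unpair j).1, hN fun i hi => by simp [hi], ?_⟩
  funext i
  have key : ∀ j, N ≤ j → (fun j => if j < N then a j else b (Nat.unpair j).1) (Nat.pair i j) = b i := by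
    intro j hj
    have h1 : ¬ Nat.pair i j < N := by
      have := Nat.right_le_pair i j
      omega
    simp only [h1, if_false, Nat.unpair_pair]
  unfold dm
  cases hb : b i
  · refine decide_eq_false ?_
    intro h
    obtain ⟨j, hj, hj'⟩ := h N
    rw [key j hj, hb] at hj'
    exact absurd hj' (by simp)
  · refine decide_eq_true ?_
    intro m
    exact ⟨max m N, le_max_left _ _, by rw [key _ (le_max_right _ _), hb]⟩

theorem code_eq (h : SIGStmt) (h6 : CAN6Stmt) (U : Set XX)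
    (hU : ∀ k, ∃ O, @IsOpen XX sig O ∧ U ∩ FF k = O ∩ FF k) :
    (⋃ (k : ℕ) (i : ℕ) (_ : sigB i ∩ FF k ⊆ U), sigB i ∩ FF k) = U ∩ Mfin := by
  ext z
  simp only [Set.mem_iUnion, exists_prop]
  constructor
  · rintro ⟨k, i, h1, h2⟩
    refine ⟨h1 h2, fun hinf => ?_⟩
    exact h2.2 ((h6.2.1 _).mp hinf (k + 1))
  · rintro ⟨hz, hfin⟩
    have h1 : ∃ k, lv z ∉ GE k := by
      by_contra hcon
      push Not at hcon
      exact hfin ((h6.2.1 _).mpr hcon)
    obtain ⟨k, hk⟩ := h1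
    have hzk : z ∈ FF k := fun h' => hk (h6.2.2 k h')
    obtain ⟨O, hO, hUO⟩ := hU k
    have h2 : z ∈ O := by
      have : z ∈ O ∩ FF k := hUO ▸ (⟨hz, hzk⟩ : z ∈ U ∩ FF k)
      exact this.1
    obtain ⟨i, hi, hiO⟩ := h.2 O hO z h2
    refine ⟨k, i, ?_, hi, hzk⟩
    intro y hy
    have : y ∈ U ∩ FF k := by
      rw [hUO]; exact ⟨hiO hy.1, hy.2⟩
    exact this.1

theorem cos_cod (h : SIGStmt) (h6 : CAN6Stmt) : CODStmt := by
  classical
  intro U V hU hV O hO hne
  obtain ⟨c, hc, hdm⟩ := dm_spec (fun j => if j % 2 = 0 then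
      decide (sigB (Nat.unpair (j / 2)).2 ∩ FF (Nat.unpair (j / 2)).1 ⊆ U)
    else decide (sigB (Nat.unpair (j / 2)).2 ∩ FF (Nat.unpair (j / 2)).1 ⊆ V)) O hO hne
  refine ⟨c, hc, ?_, ?_⟩
  · rw [← code_eq h h6 U hU]
    unfold Ucode
    rw [hdm]
    have h1 : ∀ k i, ((fun j => if j % 2 = 0 then
        decide (sigB (Nat.unpair (j / 2)).2 ∩ FF (Nat.unpair (j / 2)).1 ⊆ U)
        else decide (sigB (Nat.unpair (j / 2)).2 ∩ FF (Nat.unpair (j / 2)).1 ⊆ V)) (2 * Nat.pair k i)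
          = true) ↔ sigB i ∩ FF k ⊆ U := by
      intro k i
      simp
    simp only [h1]
  · rw [← code_eq h h6 V hV]
    unfold Vcode
    rw [hdm]
    have h1 : ∀ k i, ((fun j => if j % 2 = 0 then
        decide (sigB (Nat.unpair (j / 2)).2 ∩ FF (Nat.unpair (j / 2)).1 ⊆ U)
        else decide (sigB (Nat.unpair (j / 2)).2 ∩ FF (Nat.unpair (j / 2)).1 ⊆ V)) (2 * Nat.pair k i + 1)
          = true) ↔ sigB i ∩ FF k ⊆ V := by
      intro k i
      have h2 : (2 * Nat.pair k i + 1) % 2 = 1 := by omega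
      have h3 : (2 * Nat.pair k i + 1) / 2 = Nat.pair k i := by omega
      simp only [h2, h3, Nat.unpair_pair]
      simp
    simp only [h1]

end Pool.Agent.H55.Cos2
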