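import Pool.Agent.H55.Cos2.Tree

/-!
The canonical tree system on the Cantor space `ℕ → Bool` (subsets of `ℕ`): nodes = finite sets.
-/

namespace Pool.Agent.H55.Cos2

open Set Filter Topology

/-- the Cantor space -/
abbrev Cant := ℕ → Bool

/-- first position which is free after the finite set coded by `s` -/
def pos : List ℕ → ℕ
  | [] => 0
  | (n :: s) => pos s + n + 1

/-- the finite set coded by `s`: `n :: s` adds the element `pos s + n` -/
def nd : List ℕ → Cant
  | [] => fun _ => false
  | (n :: s) => Function.update (nd s) (pos s + n) true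

theorem nd_ge (s : List ℕ) : ∀ i, pos s ≤ i → nd s i = false := by
  induction s with
  | nil => intro i _; rfl
  | cons n s ih =>
    intro i hi
    simp only [pos] at hi
    simp only [nd]
    rw [Function.update_of_ne (by omega)]
    exact ih i (by omega)

theorem nd_cons_lt (n : ℕ) (s : List ℕ) {i : ℕ} (hi : i < pos s + n) : nd (n :: s) i = nd s i := by
  simp only [nd]
  rw [Function.update_of_ne (by omega)]

theorem nd_cons_eq (n : ℕ) (s : List ℕ) : nd (n :: s) (pos s + n) = true := by
  simp [nd]

/-- cells: the sets which start like the finite set coded by `s` -/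
def canC (s : List ℕ) : Set Cant := {x | ∀ i < pos s, x i = nd s i}

theorem isClopen_agree (a : Cant) (N : ℕ) : IsClopen {x : Cant | ∀ i < N, x i = a i} := by
  have h : {x : Cant | ∀ i < N, x i = a i} = ⋂ i ∈ Finset.range N, {x : Cant | x i = a i} := by
    ext x; simp
  rw [h]
  refine isClopen_biInter_finset fun i _ => ?_
  have : {x : Cant | x i = a i} = (fun x : Cant => x i) ⁻¹' {a i} := by ext x; simp
  rw [this]
  exact (isClopen_discrete _).preimage (continuous_apply i)

theorem exists_agree {a : Cant} {O : Set Cant} (hO : O ∈ 𝓝 a) :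
    ∃ N, {x : Cant | ∀ i < N, x i = a i} ⊆ O := by
  rw [nhds_pi, Filter.mem_pi'] at hO
  obtain ⟨I, t, ht, hs⟩ := hO
  refine ⟨I.sup id + 1, fun x hx => hs ?_⟩
  intro i hi
  have hi' : i < I.sup id + 1 := Nat.lt_succ_of_le (Finset.le_sup (f := id) hi)
  show x i ∈ t i
  rw [hx i hi']
  exact mem_of_mem_nhds (ht i)

theorem agree_mem_nhds (a : Cant) (N : ℕ) : {x : Cant | ∀ i < N, x i = a i} ∈ 𝓝 a :=
  (isClopen_agree a N).2.mem_nhds (fun _ _ => rfl)

/-- the canonical tree system on the Cantor space -/
def canon : TreeSys Cant where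
  C := canC
  w := nd
  C_nil := by ext x; simp [canC, pos]
  clopen := fun s => isClopen_agree _ _
  sub := by
    intro n s x hx i hi
    rw [hx i (by simp only [pos]; omega), nd_cons_lt n s (by omega)]
  disj := by
    have key : ∀ (s : List ℕ) (n m : ℕ), n < m → Disjoint (canC (n :: s)) (canC (m :: s)) := by
      intro s n m hnm
      rw [Set.disjoint_left]
      intro x hx hx'
      have h1 := hx (pos s + n) (by simp only [pos]; omega)
      have h2 := hx' (pos s + n) (by simp only [pos]; omega)
      rw [nd_cons_eq] at h1
      rw [nd_cons_lt m s (by omega), nd_ge s _ (by omega)] at h2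
      rw [h1] at h2
      exact absurd h2 (by simp)
    intro s n m hnm
    rcases lt_or_gt_of_ne hnm with h | h
    · exact key s n m h
    · exact (key s m n h).symm
  w_mem := fun s i _ => rfl
  w_not := by
    intro n s h
    have h1 := h (pos s + n) (by simp only [pos]; omega)
    rw [nd_cons_eq, nd_ge s _ (by omega)] at h1
    exact absurd h1 (by simp)
  conv := by
    intro s O hO
    obtain ⟨N, hN⟩ := exists_agree hO
    filter_upwards [eventually_ge_atTop N] with n hn
    intro x hx
    refine hN fun i hi => ?_
    rw [hx i (by simp only [pos]; omega), nd_cons_lt n s (by omega)]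

/-- `x` has infinitely many elements -/
def Inf (x : Cant) : Prop := ∀ m : ℕ, ∃ n, m ≤ n ∧ x n = true

/-- Kuratowski's function on the Cantor space -/
noncomputable def gg : Cant → ℝ := canon.f

/-- `x` has at least `k` elements -/
def GE (k : ℕ) : Set Cant := {x | ∃ s : List ℕ, s.length = k ∧ x ∈ canon.C s}

theorem not_inf_nd (s : List ℕ) : ¬ Inf (nd s) := by
  intro h
  obtain ⟨n, hn, h1⟩ := h (pos s)
  rw [nd_ge s n hn] at h1
  exact absurd h1 (by simp)

end Pool.Agent.H55.Cos2
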