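import Mathlib

/-!
Public definitions for MP_61a9b3_gt (Arhangel'skii): the three dimension functions and countable networks.
All three functions are indexed with a shift: `XLT X m` says that the dimension is at most m - 1.
-/

namespace Pool.Agent.H55.Cos2

universe u

/-- `X` has a countable network: a countable family of subsets such that every open set is a union
of members of the family. -/
def HasCountableNetwork (X : Type u) [TopologicalSpace X] : Prop :=
  ∃ N : Set (Set X), N.Countable ∧ ∀ O : Set X, IsOpen O → ∃ S : Set (Set X), S ⊆ N ∧ O = ⋃₀ S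

/-- `CovLT X m`: every finite open cover of `X` has a finite open refinement (again a cover) such that
every point lies in at most `m` members. So `dim X ≤ n` iff `CovLT X (n+1)`. -/
def CovLT (X : Type u) [TopologicalSpace X] (m : ℕ) : Prop :=
  ∀ U : Set (Set X), U.Finite → (∀ A ∈ U, IsOpen A) → ⋃₀ U = Set.univ →
    ∃ V : Set (Set X), V.Finite ∧ (∀ B ∈ V, IsOpen B) ∧ ⋃₀ V = Set.univ ∧
      (∀ B ∈ V, ∃ A ∈ U, B ⊆ A) ∧ ∀ x : X, {B ∈ V | x ∈ B}.ncard ≤ m

/-- `LargeLT m X`: the large inductive dimension of `X` is at most `m - 1`. -/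
def LargeLT : ℕ → ∀ (X : Type u) [TopologicalSpace X], Prop
  | 0, X, _ => IsEmpty X
  | (m + 1), X, _ => ∀ A V : Set X, IsClosed A → IsOpen V → A ⊆ V →
      ∃ U : Set X, IsOpen U ∧ A ⊆ U ∧ closure U ⊆ V ∧ LargeLT m (frontier U)

/-- `SmallLT m X`: the small inductive dimension of `X` is at most `m - 1`. -/
def SmallLT : ℕ → ∀ (X : Type u) [TopologicalSpace X], Prop
  | 0, X, _ => IsEmpty X
  | (m + 1), X, _ => ∀ (x : X) (V : Set X), IsOpen V → x ∈ V →
      ∃ U : Set X, IsOpen U ∧ x ∈ U ∧ U ⊆ V ∧ SmallLT m (frontier U)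

/-- the value in `{-1, 0, 1, 2, ..., ∞}` (with `-1 = ⊥`, `∞ = ⊤`) coded by a shifted predicate:
the least `m - 1` such that `P m`. -/
noncomputable def dimVal (P : ℕ → Prop) : WithBot ℕ∞ :=
  sInf {d : WithBot ℕ∞ | (P 0 ∧ d = ⊥) ∨ ∃ n : ℕ, P (n + 1) ∧ d = ((n : ℕ∞) : WithBot ℕ∞)}

/-- covering dimension -/
noncomputable def covDim (X : Type u) [TopologicalSpace X] : WithBot ℕ∞ := dimVal (CovLT X)

/-- large inductive dimension -/
noncomputable def largeInd (X : Type u) [TopologicalSpace X] : WithBot ℕ∞ :=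
  dimVal (fun m => LargeLT m X)

/-- small inductive dimension -/
noncomputable def smallInd (X : Type u) [TopologicalSpace X] : WithBot ℕ∞ :=
  dimVal (fun m => SmallLT m X)

end Pool.Agent.H55.Cos2
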