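import Pool.Agent.H55.Cos2.Stmts

/-!
Module DIM of project COS.
-/

set_option warn.classDefReducibility false

namespace Pool.Agent.H55.Cos2

open Set Filter Topology

theorem TT_anti {I J : Set Idx} (h : I ⊆ J) : TT J ≤ TT I := by
  unfold TT
  refine iInf_mono fun U => ?_
  exact le_iInf₂ fun i hi => iInf₂_le i (h hi)

theorem cos_dim (hL : LINStmt) (hD : DICStmt) : DIMStmt := by
  intro U hU hUo hUc
  obtain ⟨I, hI, hn, h, hh, hc⟩ := hL U hU hUo hUc
  obtain ⟨V, hV, hVo, hVc, hVr, hVn⟩ := hD I hI hn (h '' U) (hU.image h)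
    (by rintro _ ⟨A, hA, rfl⟩; exact (hh A hA).1)
    (by rw [sUnion_image]; exact hc)
  refine ⟨V, hV, fun B hB => ?_, hVc, ?_, hVn⟩
  · exact (TT_anti (subset_univ I)) B (hVo B hB)
  · intro B hB
    obtain ⟨_, ⟨A, hA, rfl⟩, hBA⟩ := hVr B hB
    exact ⟨A, hA, hBA.trans (hh A hA).2⟩

end Pool.Agent.H55.Cos2
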