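import Pool.Agent.H55.Cos2.Stmts

/-!
Module E0: start of the bracket near a point.
-/

namespace Pool.Agent.H55.Cos2

open Set Filter Topology

theorem cos_e0 (h : NBXStmt) : E0Stmt := by
  intro U V hP
  obtain ⟨⟨c0, l0, x0, y0⟩, hzU, hx, hy⟩ := hP.hA
  simp only [xc, yc] at hx hy
  subst hy
  obtain ⟨O, hO, η, hη, h1⟩ := h U hP.oU _ hzU hx (not_inf_nd [])
  have hc : Continuous (fun q : Cant × (Cant × Cant) × Cant =>
      ((q.1, q.2.1.1, q.2.1.2, q.2.2) : XX)) := by fun_prop
  have h2 : (fun q : Cant × (Cant × Cant) × Cant => ((q.1, q.2.1.1, q.2.1.2, q.2.2) : XX)) ⁻¹' O ∈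
      𝓝 (c0, (l0, x0), nd []) := hc.continuousAt.preimage_mem_nhds (by simpa using hO)
  rw [mem_nhds_prod_iff] at h2
  obtain ⟨u, hu, v', hv', huv⟩ := h2
  rw [mem_nhds_prod_iff] at hv'
  obtain ⟨v, hv, w, hw, hvw⟩ := hv'
  obtain ⟨N, hN⟩ := eventually_atTop.mp (canon.conv [] w hw)
  refine ⟨interior u, isOpen_interior, ⟨c0, mem_interior_iff_mem_nhds.2 hu⟩,
    interior v, isOpen_interior, ⟨(l0, x0), mem_interior_iff_mem_nhds.2 hv⟩, [2 * N], ?_⟩
  intro c hcu
  have hv1 : val [2 * N] = 3 / 4 := by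
    simp only [val, List.length_nil]
    rw [(even_two_mul N).neg_one_pow]; norm_num
  refine Or.inl ⟨min η (1 / 8), lt_min hη (by norm_num), ?_, ?_⟩
  · intro y hy hlt p hp
    rw [hv1] at hlt
    have h3 : val [] ≤ canon.f y := canon.f_even (even_two_mul N) hy
    simp only [val] at h3
    simp only [List.length_singleton] at hlt
    refine h1 _ ?_ ?_
    · refine huv (Set.mk_mem_prod (interior_subset hcu) (hvw (Set.mk_mem_prod (interior_subset hp) ?_)))
      exact hN (2 * N) (by omega) hy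
    · show |gg y - gg (nd [])| < η
      have h4 : gg (nd []) = val [] := canon.f_node []
      have h5 : gg y = canon.f y := rfl
      rw [h4, h5]
      simp only [val]
      have h6 := min_le_left η (1 / 8)
      rw [abs_of_nonneg (by linarith)]
      norm_num at hlt
      linarith
  · intro y hy hlt p hp
    rw [hv1] at hlt
    refine hP.hB _ ?_
    have h1 : g2 ((c, p.1, p.2, y) : XX) = canon.f y := rfl
    rw [h1]
    have h6 := min_le_right η (1 / 8 : ℝ)
    simp only [List.length_singleton] at hlt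
    have : 3 / 4 + (1 / 2 : ℝ) ^ (1 + 1) - min η (1 / 8) ≥ 3 / 4 := by norm_num; linarith
    linarith

end Pool.Agent.H55.Cos2
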