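import Pool.Agent.H55.Cos2.Stmts

/-!
Module E1 of project COS: no cell in the middle part in the x direction.
-/

namespace Pool.Agent.H55.Cos2

open Set Filter Topology

theorem length_le_pos' (t : List ℕ) : t.length ≤ pos t := by
  induction t with
  | nil => exact Nat.le_refl _
  | cons n t ih => simp only [pos, List.length_cons]; omega

theorem g1_continuous_tauU : @Continuous XX ℝ tauU inferInstance g1 := by
  have h : @Continuous XX ℝ tauU inferInstance (phi (some (Sum.inl false))) := by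
    rw [continuous_iff_le_induced]
    refine le_trans inf_le_right ?_
    exact iInf₂_le _ (Set.mem_univ _)
  exact h

theorem cos_e1 (hFKN : FKNStmt) (h1 : CAN1Stmt) (h4 : CAN4Stmt) (h6 : CAN6Stmt) : E1Stmt := by
  intro U V hP c l hl d s
  by_contra hcon
  have hno : ∀ x ∈ canon.C s, Inf x → ((c, l, x, nd d) : XX) ∉ U ∪ V :=
    fun x hx hi hU => hcon ⟨x, hx, hi, hU⟩
  -- the level
  have hk : ∃ k, l ∉ GE (k + 1) := by
    by_contra h
    simp only [not_exists, not_not] at h
    apply hl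
    rw [h6.2.1]
    intro k
    exact h6.2.2 k (h k)
  obtain ⟨k, hk⟩ := hk
  have hFF : ∀ x y : Cant, ((c, l, x, y) : XX) ∈ FF k := fun x y => hk
  -- fine neighbourhoods in the x direction
  have hfine : ∀ W : Set XX, @IsOpen XX tauU W → ∀ x : Cant, ((c, l, x, nd d) : XX) ∈ W →
      ∃ N ∈ 𝓝 x, ∃ η > 0, ∀ y ∈ N, |gg y - gg x| < η → ((c, l, y, nd d) : XX) ∈ W := by
    intro W hW x hx
    obtain ⟨O, hO, η, hη, h⟩ := hFKN W hW k _ hx (hFF _ _)
    have hcont : Continuous (fun x' : Cant => ((c, l, x', nd d) : XX)) := by fun_prop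
    refine ⟨_, hcont.continuousAt.preimage_mem_nhds hO, η, hη, fun y hy hy' =>
      h _ hy (hFF _ _) hy' ?_⟩
    show |g2 ((c, l, y, nd d) : XX) - g2 ((c, l, x, nd d) : XX)| < η
    have : g2 ((c, l, y, nd d) : XX) = g2 ((c, l, x, nd d) : XX) := rfl
    rw [this, sub_self, abs_zero]
    exact hη
  have hnode : ∀ t, canon.C t ⊆ canon.C s → ∀ W : Set XX, @IsOpen XX tauU W →
      ((c, l, nd t, nd d) : XX) ∈ W → ∃ N ∈ 𝓝 (nd t), ∃ η > 0, ∀ y ∈ N, |gg y - val t| < η →
        ((c, l, y, nd d) : XX) ∈ W := by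
    intro t _ W hW hx
    obtain ⟨N, hN, η, hη, h⟩ := hfine W hW (nd t) hx
    have hv : gg (nd t) = val t := canon.f_node t
    rw [hv] at h
    exact ⟨N, hN, η, hη, h⟩
  -- all points of the cell are in the middle part
  have hall : ∀ x ∈ canon.C s, ((c, l, x, nd d) : XX) ∉ U ∪ V := by
    intro x hx
    rcases h1 x with hi | ⟨t, rfl⟩
    · exact hno x hx hi
    · have hW : ∀ W : Set XX, @IsOpen XX tauU W → W ⊆ U ∪ V → ((c, l, nd t, nd d) : XX) ∉ W := by
        intro W hW hsub hxW
        obtain ⟨N, hN, η, hη, h⟩ := hfine W hW (nd t) hxW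
        have hv : gg (nd t) = val t := canon.f_node t
        rw [hv] at h
        obtain ⟨x', hx', hi', hg'⟩ := h4 t (N ∩ canon.C s)
          (Filter.inter_mem hN ((canon.clopen s).2.mem_nhds hx)) η hη
        exact hno x' hx'.2 hi' (hsub (h x' hx'.1 hg'))
      intro h
      rcases h with h | h
      · exact hW U hP.oU subset_union_left h
      · exact hW V hP.oV subset_union_right h
  have hOo : @IsOpen XX tauU {z | |g1 z - val s| < (1 / 2) ^ (s.length + 2)} := by
    have h2 : IsOpen {t : ℝ | |t - val s| < (1 / 2) ^ (s.length + 2)} :=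
      isOpen_lt (by fun_prop) continuous_const
    exact @Continuous.isOpen_preimage XX ℝ tauU _ _ g1_continuous_tauU _ h2
  have hw0 : ((c, l, nd s, nd d) : XX) ∈ {z : XX | |g1 z - val s| < (1 / 2) ^ (s.length + 2)} := by
    show |gg (nd s) - val s| < (1 / 2) ^ (s.length + 2)
    have hv : gg (nd s) = val s := canon.f_node s
    rw [hv, sub_self, abs_zero]
    positivity
  obtain ⟨A, B, hA, hB, hwA, hAO, hLAB, hAB⟩ :=
    hP.zd _ (hall (nd s) (canon.w_mem s)) _ hOo hw0
  have key : ∀ x ∈ canon.C s, ((c, l, x, nd d) : XX) ∈ A → ((c, l, x, nd d) : XX) ∈ B → False := by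
    intro x hx h1 h2
    have : ((c, l, x, nd d) : XX) ∈ A ∩ B ∩ (U ∪ V)ᶜ := ⟨⟨h1, h2⟩, hall x hx⟩
    rw [hAB] at this
    exact this
  let P : Cant → Prop := fun x => ((c, l, x, nd d) : XX) ∈ A
  let Q : Cant → Prop := fun x => ((c, l, x, nd d) : XX) ∈ B
  have hstep : ∀ t, (canon.BR P Q t ∧ canon.C t ⊆ canon.C s) →
      ∃ n, canon.BR P Q (n :: t) ∧ canon.C (n :: t) ⊆ canon.C s := by
    rintro t ⟨hb, ht⟩
    rcases hLAB (hall (nd t) (ht (canon.w_mem t))) with h | h
    · obtain ⟨N, hN⟩ := eventually_atTop.mp (canon.br_up hb (hnode t ht A hA h))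
      exact ⟨2 * N, hN _ (by omega) (even_two_mul N), (canon.sub _ _).trans ht⟩
    · obtain ⟨N, hN⟩ := eventually_atTop.mp (canon.br_down hb (hnode t ht B hB h))
      exact ⟨2 * N + 1, hN _ (by omega) (odd_two_mul_add_one N), (canon.sub _ _).trans ht⟩
  have hpos : (0 : ℝ) < (1 / 2) ^ (s.length + 2) := by positivity
  have hstart : ∃ n, canon.BR P Q (n :: s) ∧ canon.C (n :: s) ⊆ canon.C s := by
    obtain ⟨N0, hN0, η, hη, h3⟩ := hnode s (le_refl _) A hA hwA
    obtain ⟨N, hN⟩ := eventually_atTop.mp (canon.conv s N0 hN0)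
    have he : Even (2 * N) := even_two_mul N
    have hv : val ((2 * N) :: s) = val s + (1 / 2) ^ (s.length + 2) := by
      simp only [val, he.neg_one_pow, one_mul]
    have hl' : (((2 * N) :: s).length + 1) = s.length + 2 := by simp
    refine ⟨2 * N, ⟨min η ((1 / 2) ^ (s.length + 2)), lt_min hη hpos, ?_, ?_⟩, canon.sub _ _⟩
    · intro y hy hlt
      have h4 := canon.f_even he hy
      rw [hv, hl'] at hlt
      have h5 := min_le_left η ((1 / 2 : ℝ) ^ (s.length + 2))
      refine h3 y (hN (2 * N) (by omega) hy) ?_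
      show |canon.f y - val s| < η
      rw [abs_of_nonneg (by linarith)]
      linarith
    · intro y hy hlt
      rw [hv, hl'] at hlt
      have h5 := min_le_right η ((1 / 2 : ℝ) ^ (s.length + 2))
      have hyL := hall y (canon.sub _ _ hy)
      rcases hLAB hyL with h | h
      · exfalso
        have h6 : |g1 ((c, l, y, nd d) : XX) - val s| < (1 / 2) ^ (s.length + 2) := hAO ⟨h, hyL⟩
        have e : g1 ((c, l, y, nd d) : XX) = canon.f y := rfl
        rw [e, abs_lt] at h6
        linarith [h6.2]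
      · exact h
  obtain ⟨n0, hn0⟩ := hstart
  obtain ⟨x, hx0, hx⟩ := canon.branch (fun t => canon.BR P Q t ∧ canon.C t ⊆ canon.C s)
    (n0 :: s) hn0 hstep
  have hxs : x ∈ canon.C s := hn0.2 hx0
  have hnear : ∀ W : Set XX, @IsOpen XX tauU W → ((c, l, x, nd d) : XX) ∈ W →
      ∃ t, canon.BR P Q t ∧ canon.C t ⊆ canon.C s ∧ ∀ y ∈ canon.C t, ((c, l, y, nd d) : XX) ∈ W := by
    intro W hW hxW
    obtain ⟨N, hN, η, hη, h⟩ := hfine W hW x hxW
    obtain ⟨m, hm⟩ := exists_agree hN
    obtain ⟨j, hj⟩ := exists_pow_lt_of_lt_one hη (by norm_num : (1 / 2 : ℝ) < 1)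
    obtain ⟨t, ht, hG, hxt⟩ := hx (max m j)
    have hagree : ∀ y ∈ canon.C t, ∀ i < m, y i = x i := by
      intro y hy i hi
      have hi' : i < pos t :=
        lt_of_lt_of_le (lt_of_lt_of_le hi ((le_max_left m j).trans ht)) (length_le_pos' t)
      have e1 : y i = nd t i := hy i hi'
      have e2 : x i = nd t i := hxt i hi'
      rw [e1, e2]
    refine ⟨t, hG.1, hG.2, fun y hy => h y (hm (hagree y hy)) ?_⟩
    · have h7 := canon.f_close hy
      have h8 := canon.f_close hxt
      have h9 : (1 / 2 : ℝ) ^ (t.length) ≤ (1 / 2) ^ j :=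
        pow_le_pow_of_le_one (by norm_num) (by norm_num) ((le_max_right m j).trans ht)
      have h10 : (1 / 2 : ℝ) ^ (t.length) = 2 * (1 / 2) ^ (t.length + 1) := by
        rw [pow_succ (1 / 2 : ℝ) t.length]; ring
      show |canon.f y - canon.f x| < η
      rw [abs_le] at h7 h8
      rw [abs_lt]
      constructor <;> linarith [h7.1, h7.2, h8.1, h8.2]
  rcases hLAB (hall x hxs) with h | h
  · obtain ⟨t, hb, hts, ht⟩ := hnear A hA h
    obtain ⟨r, hr⟩ := canon.br_high hb
    have hmem := canon.sub_append r t (canon.w_mem _)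
    exact key _ (hts hmem) (ht _ hmem) hr
  · obtain ⟨t, hb, hts, ht⟩ := hnear B hB h
    obtain ⟨r, hr⟩ := canon.br_low hb
    have hmem := canon.sub_append r t (canon.w_mem _)
    exact key _ (hts hmem) hr (ht _ hmem)

end Pool.Agent.H55.Cos2
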