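import Pool.Agent.H55.Cos2.Stmts

/-!
E3: start and step of the bracket in the y-direction.
-/

namespace Pool.Agent.H55.Cos2

open Set Filter Topology

/-- a fine neighbourhood of a node in the y-direction, over a neighbourhood in (level, x) -/
theorem e3_nb (h : NBXStmt) {W : Set XX} (hW : @IsOpen XX tauU W) {c l x : Cant} (hx : Inf x)
    {d : List ℕ} (hz : ((c, l, x, nd d) : XX) ∈ W) :
    ∃ O : Set (Cant × Cant), IsOpen O ∧ (l, x) ∈ O ∧
      canon.NB (fun y => ∀ p ∈ O, ((c, p.1, p.2, y) : XX) ∈ W) d := by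
  obtain ⟨O, hO, η, hη, h1⟩ := h W hW _ hz hx (not_inf_nd d)
  have hc : Continuous (fun q : (Cant × Cant) × Cant => ((c, q.1.1, q.1.2, q.2) : XX)) := by
    fun_prop
  have h2 : (fun q : (Cant × Cant) × Cant => ((c, q.1.1, q.1.2, q.2) : XX)) ⁻¹' O ∈
      𝓝 ((l, x), nd d) := hc.continuousAt.preimage_mem_nhds (by simpa using hO)
  rw [mem_nhds_prod_iff] at h2
  obtain ⟨u, hu, v, hv, huv⟩ := h2
  refine ⟨interior u, isOpen_interior, mem_interior_iff_mem_nhds.2 hu, v, hv, η, hη, ?_⟩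
  intro y hy hlt p hp
  refine h1 _ ?_ ?_
  · exact huv (Set.mk_mem_prod (interior_subset hp) hy)
  · show |gg y - gg (nd d)| < η
    have : gg (nd d) = val d := canon.f_node d
    rw [this]
    exact hlt

/-- step of the bracket -/
theorem e3_step {A B : Set XX} {c : Cant} {O O1 : Set (Cant × Cant)} {s : List ℕ}
    (hb : canon.BR (fun y => ∀ p ∈ O, ((c, p.1, p.2, y) : XX) ∈ A)
      (fun y => ∀ p ∈ O, ((c, p.1, p.2, y) : XX) ∈ B) s) (N : ℕ) :
    (canon.NB (fun y => ∀ p ∈ O1, ((c, p.1, p.2, y) : XX) ∈ A) s →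
      ∃ n, N ≤ n ∧ canon.BR (fun y => ∀ p ∈ O ∩ O1, ((c, p.1, p.2, y) : XX) ∈ A)
        (fun y => ∀ p ∈ O ∩ O1, ((c, p.1, p.2, y) : XX) ∈ B) (n :: s)) ∧
    (canon.NB (fun y => ∀ p ∈ O1, ((c, p.1, p.2, y) : XX) ∈ B) s →
      ∃ n, N ≤ n ∧ canon.BR (fun y => ∀ p ∈ O ∩ O1, ((c, p.1, p.2, y) : XX) ∈ A)
        (fun y => ∀ p ∈ O ∩ O1, ((c, p.1, p.2, y) : XX) ∈ B) (n :: s)) := by
  constructor
  · intro hn
    obtain ⟨m, hm⟩ := (canon.br_up hb hn).exists_forall_of_atTop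
    refine ⟨2 * (m + N), by omega, ?_⟩
    refine canon.br_mono (hm (2 * (m + N)) (by omega) (by simp)) ?_ ?_
    · intro y _ hy p hp
      exact hy p hp.2
    · intro y _ hy p hp
      exact hy p hp.1
  · intro hn
    obtain ⟨m, hm⟩ := (canon.br_down hb hn).exists_forall_of_atTop
    refine ⟨2 * (m + N) + 1, by omega, ?_⟩
    refine canon.br_mono (hm (2 * (m + N) + 1) (by omega) (by simp)) ?_ ?_
    · intro y _ hy p hp
      exact hy p hp.1
    · intro y _ hy p hp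
      exact hy p hp.2

theorem cos_e3 (h : NBXStmt) : E3Stmt := by
  intro U V hP c l x hx hd
  intro O s hO hlx hG N
  rcases hd s with hu | hv
  · obtain ⟨O1, hO1, hm, hn⟩ := e3_nb h hP.oU hx hu
    rcases hG with hG | hG
    · obtain ⟨n, hn1, hn2⟩ := (e3_step (O1 := O1) hG N).1 hn
      exact ⟨n, hn1, O ∩ O1, inter_subset_left, hO.inter hO1, ⟨hlx, hm⟩, Or.inl hn2⟩
    · obtain ⟨n, hn1, hn2⟩ := (e3_step (O1 := O1) hG N).2 hn
      exact ⟨n, hn1, O ∩ O1, inter_subset_left, hO.inter hO1, ⟨hlx, hm⟩, Or.inr hn2⟩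
  · obtain ⟨O1, hO1, hm, hn⟩ := e3_nb h hP.oV hx hv
    rcases hG with hG | hG
    · obtain ⟨n, hn1, hn2⟩ := (e3_step (O1 := O1) hG N).2 hn
      exact ⟨n, hn1, O ∩ O1, inter_subset_left, hO.inter hO1, ⟨hlx, hm⟩, Or.inl hn2⟩
    · obtain ⟨n, hn1, hn2⟩ := (e3_step (O1 := O1) hG N).1 hn
      exact ⟨n, hn1, O ∩ O1, inter_subset_left, hO.inter hO1, ⟨hlx, hm⟩, Or.inr hn2⟩

end Pool.Agent.H55.Cos2
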