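import Pool.Agent.H55.Cos2.Stmts

/-!
Module E7 of project COS: the contradiction in a good tree.
-/

namespace Pool.Agent.H55.Cos2

open Set Filter Topology

theorem exists_agree_XX {x : XX} {O : Set XX} (hO : O ∈ 𝓝 x) :
    ∃ k : ℕ, ∀ z : XX, (∀ i < k, tg z i = tg x i ∧ lv z i = lv x i ∧ xc z i = xc x i ∧
      yc z i = yc x i) → z ∈ O := by
  rw [show x = (x.1, x.2.1, x.2.2.1, x.2.2.2) from rfl, nhds_prod_eq, nhds_prod_eq, nhds_prod_eq,
    Filter.mem_prod_iff] at hO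
  obtain ⟨t1, ht1, r1, hr1, h1⟩ := hO
  obtain ⟨t2, ht2, r2, hr2, h2⟩ := Filter.mem_prod_iff.mp hr1
  obtain ⟨t3, ht3, t4, ht4, h3⟩ := Filter.mem_prod_iff.mp hr2
  obtain ⟨n1, hn1⟩ := exists_agree ht1
  obtain ⟨n2, hn2⟩ := exists_agree ht2
  obtain ⟨n3, hn3⟩ := exists_agree ht3
  obtain ⟨n4, hn4⟩ := exists_agree ht4
  refine ⟨max (max n1 n2) (max n3 n4), fun z hz => h1 ⟨?_, h2 ⟨?_, h3 ⟨?_, ?_⟩⟩⟩⟩
  · exact hn1 fun i hi => (hz i (lt_of_lt_of_le hi (by simp))).1
  · exact hn2 fun i hi => (hz i (lt_of_lt_of_le hi (by simp))).2.1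
  · exact hn3 fun i hi => (hz i (lt_of_lt_of_le hi (by simp))).2.2.1
  · exact hn4 fun i hi => (hz i (lt_of_lt_of_le hi (by simp))).2.2.2

theorem phi_continuous_tauU (i : Idx) : @Continuous XX ℝ tauU inferInstance (phi i) := by
  rw [continuous_iff_le_induced]
  refine le_trans inf_le_right ?_
  exact iInf₂_le i (Set.mem_univ i)

theorem cos_e7 (hNBW : NBWStmt) (hNBI : NBIStmt) (hCAN6 : CAN6Stmt) : E7Stmt := by
  intro U V hP c S hG hf
  set L : Set XX := (U ∪ V)ᶜ with hL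
  have hwL : ∀ s, S.w s ∈ L := by
    intro s hs
    rcases hs with hs | hs
    · exact (hG.out s).1 ⟨hs, hG.levfin s⟩
    · exact (hG.out s).2 ⟨hs, hG.levfin s⟩
  have hOo : @IsOpen XX tauU {z | |fc c z - 1 / 2| < 1 / 8} := by
    have h1 : @Continuous XX ℝ tauU inferInstance (fc c) := phi_continuous_tauU (some (Sum.inr c))
    have h2 : IsOpen {t : ℝ | |t - 1 / 2| < 1 / 8} :=
      isOpen_lt (by fun_prop) continuous_const
    exact @Continuous.isOpen_preimage XX ℝ tauU _ _ h1 _ h2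
  have hw0 : S.w [] ∈ {z | |fc c z - 1 / 2| < 1 / 8} := by
    show |fc c (S.w []) - 1 / 2| < 1 / 8
    rw [hf, S.f_node]
    simp only [val]
    norm_num
  obtain ⟨A, B, hA, hB, hwA, hAO, hLAB, hAB⟩ := hP.zd (S.w []) (hwL []) _ hOo hw0
  have key : ∀ z, z ∈ A → z ∈ B → z ∈ L → False := by
    intro z h1 h2 h3
    have : z ∈ A ∩ B ∩ (U ∪ V)ᶜ := ⟨⟨h1, h2⟩, h3⟩
    rw [hAB] at this
    exact this
  let P : XX → Prop := fun z => z ∈ L → z ∈ A
  let Q : XX → Prop := fun z => z ∈ L → z ∈ B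
  have hNA : ∀ s, S.w s ∈ A → S.NB P s := by
    intro s hs
    obtain ⟨O, hO, η, hη, h⟩ := hNBW c S _ _ hG hf A hA s hs
    exact ⟨O, hO, η, hη, fun y hy hy' _ => h y hy hy'⟩
  have hNB : ∀ s, S.w s ∈ B → S.NB Q s := by
    intro s hs
    obtain ⟨O, hO, η, hη, h⟩ := hNBW c S _ _ hG hf B hB s hs
    exact ⟨O, hO, η, hη, fun y hy hy' _ => h y hy hy'⟩
  have hstep : ∀ s, S.BR P Q s → ∃ n, S.BR P Q (n :: s) := by
    intro s hs
    rcases hLAB (hwL s) with h | h
    · obtain ⟨N, hN⟩ := eventually_atTop.mp (S.br_up hs (hNA s h))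
      exact ⟨2 * N, hN _ (by omega) (even_two_mul N)⟩
    · obtain ⟨N, hN⟩ := eventually_atTop.mp (S.br_down hs (hNB s h))
      exact ⟨2 * N + 1, hN _ (by omega) (odd_two_mul_add_one N)⟩
  have hstart : ∃ n, S.BR P Q [n] := by
    obtain ⟨N0, hN0, η, hη, h3⟩ := hNA [] hwA
    obtain ⟨N, hN⟩ := eventually_atTop.mp (S.conv [] N0 hN0)
    refine ⟨2 * N, min η (1 / 8), lt_min hη (by norm_num), ?_, ?_⟩
    · intro y hy hlt
      have he : Even (2 * N) := even_two_mul N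
      have h4 := S.f_even he hy
      have hv : val [2 * N] = 3 / 4 := by
        simp only [val, he.neg_one_pow, List.length_nil]; norm_num
      rw [hv] at hlt
      simp only [val, List.length_cons, List.length_nil] at hlt h4
      have h5 := min_le_left η (1 / 8)
      refine h3 y (hN (2 * N) (by omega) hy) ?_
      simp only [val]
      rw [abs_of_nonneg (by linarith)]
      norm_num at hlt
      linarith
    · intro y hy hlt hyL
      have he : Even (2 * N) := even_two_mul N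
      have hv : val [2 * N] = 3 / 4 := by
        simp only [val, he.neg_one_pow, List.length_nil]; norm_num
      rw [hv] at hlt
      simp only [List.length_cons, List.length_nil] at hlt
      have h5 := min_le_right η (1 / 8)
      rcases hLAB hyL with h | h
      · exfalso
        have h6 : |fc c y - 1 / 2| < 1 / 8 := hAO ⟨h, hyL⟩
        rw [hf, abs_lt] at h6
        norm_num at hlt
        linarith [h6.2]
      · exact h
  obtain ⟨n0, hn0⟩ := hstart
  obtain ⟨x, _, hx⟩ := S.branch (S.BR P Q) [n0] hn0 hstep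
  have hmono : ∀ {j k : ℕ}, j ≤ k → GE k ⊆ GE j := by
    intro j k hjk
    induction k, hjk using Nat.le_induction with
    | base => exact le_refl _
    | succ k _ ih => exact (hCAN6.2.2 k).trans ih
  have hInf : Inf (lv x) ∧ Inf (xc x) ∧ Inf (yc x) := by
    refine ⟨(hCAN6.2.1 _).2 fun k => ?_, (hCAN6.2.1 _).2 fun k => ?_, (hCAN6.2.1 _).2 fun k => ?_⟩
    all_goals obtain ⟨s, hk, _, hs⟩ := hx k
    · exact hmono hk (hG.deep s x hs).1
    · exact hmono hk (hG.deep s x hs).2.1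
    · exact hmono hk (hG.deep s x hs).2.2
  have hnear : ∀ O ∈ 𝓝 x, ∃ s : List ℕ, S.BR P Q s ∧ S.C s ⊆ O := by
    intro O hO
    obtain ⟨k, hk⟩ := exists_agree_XX hO
    obtain ⟨s, hks, hb, hs⟩ := hx k
    refine ⟨s, hb, fun z hz => hk z fun i hi => ?_⟩
    have h1 := hG.small s z hz i (lt_of_lt_of_le hi hks)
    have h2 := hG.small s x hs i (lt_of_lt_of_le hi hks)
    rw [h1.1, h1.2.1, h1.2.2.1, h1.2.2.2, h2.1, h2.2.1, h2.2.2.1, h2.2.2.2]
    exact ⟨rfl, rfl, rfl, rfl⟩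
  have hxL : x ∈ L := by
    intro hxU
    rcases hxU with hxU | hxU
    · obtain ⟨s, _, hs⟩ := hnear U (hNBI U hP.oU x hxU hInf.1 hInf.2.1 hInf.2.2)
      exact hwL s (Or.inl (hs (S.w_mem s)))
    · obtain ⟨s, _, hs⟩ := hnear V (hNBI V hP.oV x hxU hInf.1 hInf.2.1 hInf.2.2)
      exact hwL s (Or.inr (hs (S.w_mem s)))
  rcases hLAB hxL with h | h
  · obtain ⟨s, hb, hs⟩ := hnear A (hNBI A hA x h hInf.1 hInf.2.1 hInf.2.2)
    obtain ⟨r, hr⟩ := S.br_high hb
    exact key _ (hs (S.sub_append r s (S.w_mem _))) (hr (hwL _)) (hwL _)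
  · obtain ⟨s, hb, hs⟩ := hnear B (hNBI B hB x h hInf.1 hInf.2.1 hInf.2.2)
    obtain ⟨r, hr⟩ := S.br_low hb
    exact key _ (hr (hwL _)) (hs (S.sub_append r s (S.w_mem _))) (hwL _)

end Pool.Agent.H55.Cos2
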