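import Pool.Agent.H55.Cos2.Stmts

/-!
Module FIN: the final theorem.
-/

set_option warn.classDefReducibility false

namespace Pool.Agent.H55.Cos2

open Set Filter Topology

theorem small_succ : ∀ (m : ℕ) (X : Type) [TopologicalSpace X], SmallLT m X → SmallLT (m + 1) X := by
  intro m
  induction m with
  | zero =>
    intro X _ h x V hV hxV
    have h' : IsEmpty X := h
    exact (h'.false x).elim
  | succ m ih =>
    intro X _ h x V hV hxV
    obtain ⟨U, hU, hxU, hUV, hf⟩ := h x V hV hxV
    exact ⟨U, hU, hxU, hUV, ih _ hf⟩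

theorem small_le {m n : ℕ} (h : m ≤ n) (X : Type) [TopologicalSpace X] (hm : SmallLT m X) :
    SmallLT n X := by
  induction n, h using Nat.le_induction with
  | base => exact hm
  | succ n _ ih => exact small_succ n X ih

theorem large_small : ∀ (m : ℕ) (X : Type) [TopologicalSpace X] [T1Space X], LargeLT m X →
    SmallLT m X := by
  intro m
  induction m with
  | zero => intro X _ _ h; exact h
  | succ m ih =>
    intro X _ _ h x V hV hxV
    obtain ⟨U, hU, hxU, hUV, hf⟩ := h {x} V isClosed_singleton hV (Set.singleton_subset_iff.mpr hxV)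
    exact ⟨U, hU, hxU rfl, subset_closure.trans hUV, ih _ hf⟩

theorem two_le_dimVal {P : ℕ → Prop} (h : ∀ m, m ≤ 2 → ¬ P m) : 2 ≤ dimVal P := by
  refine le_sInf ?_
  rintro d (⟨h0, rfl⟩ | ⟨n, hn, rfl⟩)
  · exact absurd h0 (h 0 (by omega))
  · have : 2 ≤ n := by
      by_contra hcon
      exact h (n + 1) (by omega) hn
    have h3 : ((2 : ℕ∞) : WithBot ℕ∞) ≤ ((n : ℕ∞) : WithBot ℕ∞) :=
      WithBot.coe_le_coe.mpr (by exact_mod_cast this)
    exact h3

theorem cos_fin (hG : GTGStmt) (hN : NETStmt) (hD : DIMStmt) (hI : IGGStmt) : FINStmt := by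
  have key : ∃ (G : Type) (_ : CommGroup G) (_ : TopologicalSpace G), IsTopologicalGroup G ∧ T2Space G ∧
      HasCountableNetwork G ∧ covDim G ≤ 1 ∧ 2 ≤ smallInd G ∧ 2 ≤ largeInd G := by
    letI : TopologicalSpace GG := TT Set.univ
    haveI : IsTopologicalAddGroup GG := hG.1 Set.univ
    haveI hT2 : T2Space GG := hG.2 Set.univ trivial
    have hs : ∀ m, m ≤ 2 → ¬ SmallLT m GG := fun m hm h => hI (small_le hm _ h)
    refine ⟨Multiplicative GG, inferInstance, inferInstance, inferInstance, hT2, hN, ?_,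
      two_le_dimVal hs, two_le_dimVal fun m hm h => hs m hm (large_small m GG h)⟩
    refine sInf_le (Or.inr ⟨1, hD, ?_⟩)
    rfl
  refine ⟨key, fun hall => ?_⟩
  obtain ⟨G, hG1, hG2, hG3, hG4, hG5, hG6, _, hG7⟩ := key
  have h := (hall G hG5).1
  rw [h] at hG6
  have h2 : (2 : WithBot ℕ∞) ≤ 1 := hG7.trans hG6
  exact absurd h2 (by decide)

end Pool.Agent.H55.Cos2
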