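import Pool.Agent.H55.Cos2.Stmts

/-!
COS modules FKN and FKO.
-/

set_option warn.classDefReducibility false

namespace Pool.Agent.H55.Cos2

open Set Filter Topology

theorem cos_fkn (hN : NBHStmt) (hC : ACTCStmt) : FKNStmt := by
  intro U hU k z hz hzk
  obtain ⟨O, hO, η, hη, s, hs, h⟩ := hN Set.univ U hU z hz
  -- within `FF k` all the functions `fc c` are continuous
  have h1 : ∀ i ∈ s, ∀ᶠ z' in 𝓝[FF k] z, (∃ c, i = some (Sum.inr c)) → |phi i z' - phi i z| < η := by
    intro i _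
    match i with
    | none => exact Eventually.of_forall (by rintro z' ⟨c, hc⟩; cases hc)
    | some (Sum.inl b) => exact Eventually.of_forall (by rintro z' ⟨c, hc⟩; cases hc)
    | some (Sum.inr c) =>
      have h2 := hC c k z hzk
      have h3 : ∀ᶠ z' in 𝓝[FF k] z, fc c z' ∈ Metric.ball (fc c z) η :=
        h2 (Metric.ball_mem_nhds _ hη)
      filter_upwards [h3] with z' hz' _
      have := Metric.mem_ball.mp hz'
      rwa [Real.dist_eq] at this
  have h2 : ∀ᶠ z' in 𝓝[FF k] z, ∀ i ∈ s, (∃ c, i = some (Sum.inr c)) → |phi i z' - phi i z| < η := by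
    rw [Filter.eventually_all_finset]
    exact h1
  rw [Filter.Eventually, mem_nhdsWithin_iff_exists_mem_nhds_inter] at h2
  obtain ⟨O', hO', hO''⟩ := h2
  refine ⟨O ∩ O', inter_mem hO hO', η, hη, ?_⟩
  intro z' hz' hk' hg1 hg2
  refine h z' hz'.1 ?_
  intro i hi
  have h3 := hO'' ⟨hz'.2, hk'⟩ i hi
  match i with
  | none => exact absurd continuousAt_const (hs _ hi).2
  | some (Sum.inl false) => exact hg1
  | some (Sum.inl true) => exact hg2
  | some (Sum.inr c) => exact h3 ⟨c, rfl⟩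

theorem cos_fko (hN : FKNStmt) : FKOStmt := by
  classical
  intro U hU k
  have h : ∀ z : XX, ∃ (O : Set XX) (η : ℝ), z ∈ U ∩ FF k → (O ∈ 𝓝 z ∧ 0 < η ∧
      ∀ z' ∈ O, z' ∈ FF k → |g1 z' - g1 z| < η → |g2 z' - g2 z| < η → z' ∈ U) := by
    intro z
    by_cases hz : z ∈ U ∩ FF k
    · obtain ⟨O, hO, η, hη, h⟩ := hN U hU k z hz.1 hz.2
      exact ⟨O, η, fun _ => ⟨hO, hη, h⟩⟩
    · exact ⟨∅, 0, fun h => absurd h hz⟩
  choose O η hO using h
  let W : XX → Set XX := fun z => interior (O z) ∩ (g1 ⁻¹' Metric.ball (g1 z) (η z) ∩ g2 ⁻¹' Metric.ball (g2 z) (η z))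
  have hW : ∀ z, @IsOpen XX sig (W z) := by
    intro z
    have a1 : sig ≤ (inferInstance : TopologicalSpace XX) := inf_le_left
    have a2 : sig ≤ TopologicalSpace.induced g1 inferInstance := inf_le_right.trans inf_le_left
    have a3 : sig ≤ TopologicalSpace.induced g2 inferInstance := inf_le_right.trans inf_le_right
    refine @IsOpen.inter XX sig _ _ (a1 _ isOpen_interior) (@IsOpen.inter XX sig _ _ (a2 _ ?_) (a3 _ ?_))
    · exact ⟨_, Metric.isOpen_ball, rfl⟩
    · exact ⟨_, Metric.isOpen_ball, rfl⟩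
  refine ⟨⋃ z ∈ U ∩ FF k, W z, ?_, ?_⟩
  · exact @isOpen_biUnion XX XX sig _ _ (fun z _ => hW z)
  · apply Subset.antisymm
    · intro z hz
      refine ⟨?_, hz.2⟩
      simp only [mem_iUnion, exists_prop]
      refine ⟨z, hz, mem_interior_iff_mem_nhds.mpr (hO z hz).1, ?_, ?_⟩
      · exact Metric.mem_ball_self (hO z hz).2.1
      · exact Metric.mem_ball_self (hO z hz).2.1
    · rintro z ⟨hz, hk⟩
      simp only [mem_iUnion, exists_prop] at hz
      obtain ⟨y, hy, h1, h2, h3⟩ := hz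
      refine ⟨(hO y hy).2.2 z (interior_subset h1) hk ?_ ?_, hk⟩
      · have := Metric.mem_ball.mp h2
        rwa [Real.dist_eq] at this
      · have := Metric.mem_ball.mp h3
        rwa [Real.dist_eq] at this

end Pool.Agent.H55.Cos2
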