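import Pool.Agent.H55.Cos2.Stmts

/-!
Module IGG: the small inductive dimension of the group is at least 2.
-/

set_option warn.classDefReducibility false

namespace Pool.Agent.H55.Cos2

open Set Filter Topology

theorem small_one_zd {M : Type} [TopologicalSpace M] {s : Set M} (h : SmallLT 1 s) :
    ZD s := by
  intro x hx O hO hxO
  have h1 := h ⟨x, hx⟩ (Subtype.val ⁻¹' O) (hO.preimage continuous_subtype_val) hxO
  obtain ⟨U, hU, hxU, hUO, hf⟩ := h1
  have hf' : frontier U = ∅ := by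
    have : IsEmpty (frontier U) := hf
    exact Set.isEmpty_coe_sort.mp this
  have hcl : IsClosed U := by
    have := hU.frontier_eq
    rw [hf'] at this
    have h2 : closure U ⊆ U := by
      intro y hy
      by_contra hcon
      have : y ∈ (∅ : Set s) := by rw [this]; exact ⟨hy, hcon⟩
      exact this
    exact closure_subset_iff_isClosed.mp h2
  obtain ⟨A, hA, hAU⟩ := isOpen_induced_iff.mp hU
  obtain ⟨B, hB, hBU⟩ := isOpen_induced_iff.mp hcl.isOpen_compl
  have mA : ∀ y (hy : y ∈ s), y ∈ A ↔ (⟨y, hy⟩ : s) ∈ U := by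
    intro y hy
    rw [← hAU]; rfl
  have mB : ∀ y (hy : y ∈ s), y ∈ B ↔ (⟨y, hy⟩ : s) ∉ U := by
    intro y hy
    rw [← Set.mem_compl_iff, ← hBU]; rfl
  refine ⟨A, B, hA, hB, (mA x hx).mpr hxU, ?_, ?_, ?_⟩
  · rintro y ⟨hyA, hy⟩
    exact hUO ((mA y hy).mp hyA)
  · intro y hy
    by_cases hyU : (⟨y, hy⟩ : s) ∈ U
    · exact Or.inl ((mA y hy).mpr hyU)
    · exact Or.inr ((mB y hy).mpr hyU)
  · ext y
    simp only [mem_inter_iff, mem_empty_iff_false, iff_false]
    rintro ⟨⟨hyA, hyB⟩, hy⟩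
    exact (mB y hy).mp hyB ((mA y hy).mp hyA)

theorem hm_top_de (i : Idx) (z : XX) : hm ⊤ i (de z) = phi i z := by
  rw [hm_de]
  unfold ch
  rw [if_pos (by trivial)]

theorem cos_igg (hD : DEIStmt) (hI : INDStmt) : IGGStmt := by
  intro h
  let _ : TopologicalSpace GG := TT Set.univ
  obtain ⟨hind, _⟩ := hD Set.univ trivial
  have htau : tauU = TopologicalSpace.induced de (TT Set.univ) := hind
  have hop : ∀ O : Set GG, IsOpen O → @IsOpen XX tauU (de ⁻¹' O) := by
    intro O hO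
    rw [htau]
    exact isOpen_induced hO
  -- the function g2 on the group
  have hc : Continuous (hm ⊤ (some (Sum.inl true))) := by
    rw [continuous_iff_le_induced]
    show TT Set.univ ≤ _
    unfold TT
    exact iInf_le_of_le ⊤ (iInf₂_le (some (Sum.inl true)) trivial)
  have hval : ∀ z, hm ⊤ (some (Sum.inl true)) (de z) = g2 z := fun z => hm_top_de _ z
  let z0 : XX := (fun _ => false, nd [], fun _ => true, nd [])
  have hz0 : g2 z0 = 1 / 2 := canon.f_node []
  obtain ⟨W, hW, hzW, hWV, hf⟩ := h (de z0) (hm ⊤ (some (Sum.inl true)) ⁻¹' (Set.Iio (5 / 8)))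
    (isOpen_Iio.preimage hc) (by
      rw [Set.mem_preimage, hval, hz0, Set.mem_Iio]; norm_num)
  have hclW : closure W ⊆ hm ⊤ (some (Sum.inl true)) ⁻¹' (Set.Iic (5 / 8)) :=
    closure_minimal (hWV.trans (Set.preimage_mono Set.Iio_subset_Iic_self)) (isClosed_Iic.preimage hc)
  have hzd : ZD (frontier W) := small_one_zd hf
  refine hI (de ⁻¹' W) (de ⁻¹' (closure W)ᶜ)
    ⟨hop _ hW, hop _ isClosed_closure.isOpen_compl, ?_, ⟨z0, hzW, ?_, rfl⟩, ?_, ?_⟩
  · rw [Set.disjoint_left]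
    intro z hz hz'
    exact hz' (subset_closure hz)
  · intro m
    exact ⟨m, le_rfl, rfl⟩
  · intro z hz hz'
    have h1 := hclW hz'
    rw [Set.mem_preimage, hval, Set.mem_Iic] at h1
    linarith
  · have hs : (de ⁻¹' W ∪ de ⁻¹' (closure W)ᶜ)ᶜ = de ⁻¹' (frontier W) := by
      rw [hW.frontier_eq]
      ext z
      simp only [mem_compl_iff, mem_union, mem_preimage, Set.mem_sdiff]
      tauto
    rw [hs]
    intro z hz O hO hzO
    rw [htau] at hO
    obtain ⟨O', hO', rfl⟩ := isOpen_induced_iff.mp hO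
    obtain ⟨A, B, hA', hB', hzA, hAO, hAB, hABe⟩ := hzd (de z) hz O' hO' hzO
    refine ⟨de ⁻¹' A, de ⁻¹' B, hop _ hA', hop _ hB', hzA, ?_, ?_, ?_⟩
    · rintro y ⟨hy, hy'⟩
      exact hAO ⟨hy, hy'⟩
    · intro y hy
      exact hAB hy
    · ext y
      simp only [mem_inter_iff, mem_preimage, mem_empty_iff_false, iff_false]
      rintro ⟨⟨h1, h2⟩, h3⟩
      have : de y ∈ A ∩ B ∩ frontier W := ⟨⟨h1, h2⟩, h3⟩
      rw [hABe] at this
      exact this

end Pool.Agent.H55.Cos2
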