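import Pool.Agent.H55.Cos2.Stmts

/-!
Module IND of project COS: there is no zero-dimensional partition.
-/

namespace Pool.Agent.H55.Cos2

open Set Filter Topology

theorem cos_ind (h1 : FKOStmt) (h2 : CODStmt) (h3 : E5Stmt) (h4 : E6Stmt) (h5 : E7Stmt) :
    INDStmt := by
  intro U V hP
  obtain ⟨⟨Oc, hOc, hOne, hne⟩, hnear⟩ := h3 U V hP
  obtain ⟨c, hcO, hU, hV⟩ := h2 U V (fun k => h1 U hP.oU k) (fun k => h1 V hP.oV k) Oc hOc hOne
  obtain ⟨z0, hz0, htz0⟩ := hne c hcO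
  obtain ⟨S, hw, hlev, hdeep, hsmall⟩ := h4 {z | Rob U V z ∧ tg z = c}
    (fun z hz => ⟨hz.1.1, hz.1.2.1, hz.1.2.2.1⟩)
    (fun z hz N hN k => by
      obtain ⟨z', hz', hr, ht, hk⟩ := hnear z hz.1 N hN k
      exact ⟨z', hz', ⟨hr, ht.trans hz.2⟩, hk⟩)
    ⟨z0, hz0, htz0⟩
  have hS : GoodTree c (Ucode c) (Vcode c) S := by
    refine ⟨fun s => (hw s).2, fun s => (hw s).1.1, fun s => (hw s).1.2.1, fun s => (hw s).1.2.2.1,
      fun s => ?_, hlev, hdeep, hsmall⟩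
    rw [hU, hV]
    exact ⟨fun h => (hw s).1.2.2.2.1 h.1, fun h => (hw s).1.2.2.2.2.1 h.1⟩
  have hex : ∃ S : TreeSys XX, GoodTree c (Ucode c) (Vcode c) S := ⟨S, hS⟩
  have hfc : fc c = hex.choose.f := by
    unfold fc
    rw [dif_pos hex]
  obtain ⟨S', hS'⟩ : ∃ S', S' = hex.choose := ⟨_, rfl⟩
  have hgood : GoodTree c (Ucode c) (Vcode c) S' := hS' ▸ hex.choose_spec
  rw [← hS'] at hfc
  clear hS'
  rw [hU, hV] at hgood
  exact h5 U V hP c S' hgood hfc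

end Pool.Agent.H55.Cos2
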