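import Pool.Agent.H55.Cos2.Stmts

/-!
KDE: decomposition of the powers.
-/

set_option warn.classDefReducibility false

namespace Pool.Agent.H55.Cos2

open Set Filter Topology

theorem kde_cb (r : ℕ) : CB (Fin r → XX) := by
  intro z O hO
  obtain ⟨U, hUO, hU, hz⟩ := mem_nhds_iff.1 hO
  obtain ⟨V, hV, hzV, hVU⟩ := compact_exists_isClopen_in_isOpen hU hz
  exact ⟨V, hV, hzV, hVU.trans hUO⟩

theorem kde_tp (I : Set Idx) (r : ℕ) : tp I r = (inferInstance : TopologicalSpace (Fin r → XX)) ⊓
    ⨅ j : Fin r, ⨅ i ∈ I, TopologicalSpace.induced (fun z : Fin r → XX => phi i (z j)) inferInstance := by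
  have h1 : tp I r = ⨅ j : Fin r, TopologicalSpace.induced (fun z : Fin r → XX => z j) (tau I) := rfl
  have h2 : (inferInstance : TopologicalSpace (Fin r → XX)) =
    ⨅ j : Fin r, TopologicalSpace.induced (fun z : Fin r → XX => z j) inferInstance := rfl
  rw [h1, h2, ← iInf_inf_eq]
  refine iInf_congr fun j => ?_
  unfold tau
  rw [induced_inf, induced_iInf]
  congr 1
  refine iInf_congr fun i => ?_
  rw [induced_iInf]
  refine iInf_congr fun _ => ?_
  rw [induced_compose]
  rfl

/-- the enumerated functions -/
noncomputable def kdeF {I : Set Idx} {r : ℕ} (e : ℕ → Option (I × Fin r)) (m : ℕ) (z : Fin r → XX) : ℝ :=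
  match e m with
  | none => 0
  | some p => phi p.1 (z p.2)

theorem kde_fine {I : Set Idx} {r : ℕ} (e : ℕ → Option (I × Fin r)) (he : Function.Surjective e) :
    tp I r = fineT (kdeF e) := by
  rw [kde_tp]
  unfold fineT
  congr 1
  apply le_antisymm
  · refine le_iInf fun m => ?_
    cases h : e m with
    | none =>
      have h1 : kdeF e m = fun _ => 0 := by
        funext z
        simp [kdeF, h]
      rw [h1, induced_const]
      exact le_top
    | some p =>
      have h1 : kdeF e m = fun z => phi p.1 (z p.2) := by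
        funext z
        simp [kdeF, h]
      rw [h1]
      exact (iInf_le _ p.2).trans (iInf₂_le p.1.1 p.1.2)
  · refine le_iInf fun j => le_iInf₂ fun i hi => ?_
    obtain ⟨m, hm⟩ := he (some (⟨i, hi⟩, j))
    refine (iInf_le _ m).trans ?_
    have h1 : kdeF e m = fun z => phi i (z j) := by
      funext z
      simp [kdeF, hm]
    rw [h1]

theorem cos_kde (h : PTAMStmt) (h' : DECStmt) : KDEStmt := by
  intro I hI r
  have : Countable I := hI
  obtain ⟨e, he⟩ := exists_surjective_nat (Option (I × Fin r))
  rw [kde_fine e he]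
  refine h' (Fin r → XX) (kde_cb r) (kdeF e) ?_ ?_
  · intro m
    cases hm : e m with
    | none =>
      have h1 : kdeF e m = fun _ => 0 := by
        funext z
        simp [kdeF, hm]
      rw [h1]
      intro ε hε
      exact ⟨{0}, fun _ => ∅, fun _ => isClopen_empty, fun _ _ _ => by simp,
        fun i z hz => absurd hz (by simp), fun z _ => ⟨0, by simp, by simp⟩⟩
    | some p =>
      have h1 : kdeF e m = fun z => phi p.1 (z p.2) := by
        funext z
        simp [kdeF, hm]
      rw [h1]
      exact h.2 p.1 r p.2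
  · intro m z
    cases hm : e m with
    | none => simp [kdeF, hm]
    | some p => simpa [kdeF, hm] using h.1 p.1 (z p.2)

end Pool.Agent.H55.Cos2
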