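import Pool.Agent.H55.Cos2.Stmts

/-!
COS modules LIN and DIC.
-/

set_option warn.classDefReducibility false

namespace Pool.Agent.H55.Cos2

open Set Filter Topology

theorem TT_mono {I J : Set Idx} (h : I ⊆ J) : TT J ≤ TT I := by
  unfold TT
  refine iInf_mono fun U => ?_
  refine le_iInf₂ fun i hi => ?_
  exact iInf₂_le i (h hi)

theorem TT_univ_eq : TT Set.univ = ⨅ I : {I : Set Idx // I.Countable ∧ none ∈ I}, TT I.1 := by
  apply le_antisymm
  · exact le_iInf fun I => TT_mono (subset_univ _)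
  · unfold TT
    refine le_iInf fun U => le_iInf₂ fun i _ => ?_
    have h : ({none, i} : Set Idx).Countable ∧ none ∈ ({none, i} : Set Idx) :=
      ⟨(Set.toFinite _).countable, by simp⟩
    refine (iInf_le _ (⟨{none, i}, h⟩ : {I : Set Idx // I.Countable ∧ none ∈ I})).trans ?_
    refine (iInf_le _ U).trans ?_
    exact iInf₂_le i (by simp)

theorem TT_local (A : Set GG) (hA : @IsOpen GG (TT Set.univ) A) (g : GG) (hg : g ∈ A) :
    ∃ I : Set Idx, I.Countable ∧ none ∈ I ∧ ∃ W : Set GG, @IsOpen GG (TT I) W ∧ g ∈ W ∧ W ⊆ A := by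
  have h1 : A ∈ @nhds GG (TT Set.univ) g := @IsOpen.mem_nhds GG (TT Set.univ) g A hA hg
  rw [TT_univ_eq, nhds_iInf] at h1
  have hne : Nonempty {I : Set Idx // I.Countable ∧ none ∈ I} :=
    ⟨⟨{none}, (Set.toFinite _).countable, by simp⟩⟩
  have hd : Directed (· ≥ ·) (fun I : {I : Set Idx // I.Countable ∧ none ∈ I} => @nhds GG (TT I.1) g) := by
    intro I J
    refine ⟨⟨I.1 ∪ J.1, I.2.1.union J.2.1, Or.inl I.2.2⟩, ?_, ?_⟩
    · exact nhds_mono (TT_mono subset_union_left)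
    · exact nhds_mono (TT_mono subset_union_right)
  rw [Filter.mem_iInf_of_directed hd] at h1
  obtain ⟨I, hI⟩ := h1
  rw [@mem_nhds_iff GG (TT I.1) g A] at hI
  obtain ⟨W, hWA, hW, hgW⟩ := hI
  exact ⟨I.1, I.2.1, I.2.2, W, hW, hgW, hWA⟩

theorem cos_lin (hN : NETStmt) : LINStmt := by
  classical
  intro U _ hU hcov
  obtain ⟨N, hNc, hN⟩ := hN
  -- local choices
  have h1 : ∀ g : GG, ∃ (A : Set GG) (I : Set Idx) (W : Set GG), A ∈ U ∧ I.Countable ∧ none ∈ I ∧
      @IsOpen GG (TT I) W ∧ g ∈ W ∧ W ⊆ A := by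
    intro g
    have h2 : g ∈ ⋃₀ U := by rw [hcov]; trivial
    obtain ⟨A, hA, hgA⟩ := h2
    obtain ⟨I, hI1, hI2, W, hW⟩ := TT_local A (hU A hA) g hgA
    exact ⟨A, I, W, hA, hI1, hI2, hW⟩
  choose A I W hA hI1 hI2 hWo hgW hWA using h1
  have hWu : ∀ g, @IsOpen GG (TT Set.univ) (W g) := fun g => TT_mono (subset_univ _) _ (hWo g)
  have h2 : ∀ g, ∃ n ∈ N, g ∈ n ∧ n ⊆ W g := by
    intro g
    obtain ⟨S, hS, hWS⟩ := hN (W g) (hWu g)
    have h3 : g ∈ ⋃₀ S := by rw [← hWS]; exact hgW g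
    obtain ⟨n, hn, hgn⟩ := h3
    exact ⟨n, hS hn, hgn, by rw [hWS]; exact subset_sUnion_of_mem hn⟩
  -- the good members of the network
  let N' : Set (Set GG) := {n ∈ N | ∃ g, n ⊆ W g}
  have hN' : N'.Countable := hNc.mono (fun n hn => hn.1)
  have h3 : ∀ n : Set GG, ∃ g : GG, n ∈ N' → n ⊆ W g := by
    intro n
    by_cases hn : n ∈ N'
    · obtain ⟨g, hg⟩ := hn.2
      exact ⟨g, fun _ => hg⟩
    · exact ⟨0, fun h => absurd h hn⟩
  choose G hG using h3
  refine ⟨insert none (⋃ n ∈ N', I (G n)), ?_, mem_insert _ _, fun B => ⋃ n ∈ {n ∈ N' | A (G n) = B}, W (G n),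
    ?_, ?_⟩
  · exact (hN'.biUnion fun n _ => hI1 _).insert _
  · intro B _
    refine ⟨?_, ?_⟩
    · refine @isOpen_biUnion GG (Set GG) (TT _) _ _ fun n hn => ?_
      refine TT_mono ?_ _ (hWo (G n))
      refine Subset.trans ?_ (subset_insert _ _)
      exact subset_biUnion_of_mem (u := fun n => I (G n)) hn.1
    · refine iUnion₂_subset fun n hn => ?_
      have := hWA (G n)
      rwa [hn.2] at this
  · apply Set.eq_univ_of_forall
    intro g
    obtain ⟨n, hn, hgn, hnW⟩ := h2 g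
    have hn' : n ∈ N' := ⟨hn, g, hnW⟩
    refine mem_biUnion (hA (G n)) ?_
    exact mem_biUnion (show n ∈ {m ∈ N' | A (G m) = A (G n)} from ⟨hn', rfl⟩) (hG n hn' hgn)

theorem cos_dic (hC : PCCStmt) (hL : PCLStmt) (hD : PCDStmt) (hS : SECStmt) (hZ : ZDDStmt) :
    DICStmt := by
  classical
  intro I hI hn
  obtain ⟨i1, i2⟩ := hS I hI hn
  have hcl : Countable (TopologicalSpace.Clopens XX) :=
    TopologicalSpace.Clopens.countable_iff_secondCountable.mpr inferInstance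
  let T := Σ r : ℕ, (Fin r → ℤ) × (Fin r → TopologicalSpace.Clopens XX)
  have hT : Countable T := inferInstance
  have hTn : Nonempty T := ⟨⟨0, Fin.elim0, Fin.elim0⟩⟩
  obtain ⟨e, he⟩ := exists_surjective_nat T
  let ok : T → Prop := fun t => (∀ j, t.2.1 j ≠ 0) ∧
    (∀ i j, i ≠ j → Disjoint (t.2.2 i : Set XX) (t.2.2 j))
  have h1 : ∀ t : T, ∃ D : ℕ → Set GG, ok t → ((∀ n, @IsClosed GG (TT I) (D n)) ∧
      (∀ n, D n ⊆ pc t.2.1 t.2.2) ∧
      (∀ n, @ZD GG (TT I) (D n)) ∧ @ZD GG (TT I) (pc t.2.1 t.2.2 \ ⋃ n, D n)) := by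
    intro t
    by_cases ht : ok t
    · obtain ⟨D, h⟩ := hD I hI hn t.1 t.2.1 t.2.2 ht.1 ht.2
      exact ⟨D, fun _ => h⟩
    · exact ⟨fun _ => ∅, fun h => absurd h ht⟩
  choose D hDD using h1
  have hZ0 : @ZD GG (TT I) ∅ := by
    intro x hx
    exact absurd hx (notMem_empty x)
  refine @hZ GG (TT I) i2 i1 (fun n => if ok (e n) then pc (e n).2.1 (e n).2.2 else ∅)
    (fun n j => if ok (e n) then D (e n) j else ∅) ?_ ?_ ?_ ?_ ?_ ?_
  · intro n
    by_cases h : ok (e n)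
    · simp only [if_pos h]
      exact hL I hn _ _ _
    · simp only [if_neg h]
      exact @isClosed_empty GG (TT I)
  · apply Set.eq_univ_of_forall
    intro g
    obtain ⟨r, k, U, hk, hU, hg⟩ := hC g
    obtain ⟨n, hn'⟩ := he ⟨r, k, U⟩
    refine mem_iUnion.mpr ⟨n, ?_⟩
    have h : ok (e n) := by rw [hn']; exact ⟨hk, hU⟩
    simp only [if_pos h]
    rw [hn']
    exact hg
  · intro n j
    by_cases h : ok (e n)
    · simp only [if_pos h]
      exact (hDD _ h).1 j
    · simp only [if_neg h]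
      exact @isClosed_empty GG (TT I)
  · intro n j
    by_cases h : ok (e n)
    · simp only [if_pos h]
      exact (hDD _ h).2.1 j
    · simp only [if_neg h]
      exact Subset.refl _
  · intro n j
    by_cases h : ok (e n)
    · simp only [if_pos h]
      exact (hDD _ h).2.2.1 j
    · simp only [if_neg h]
      exact hZ0
  · intro n
    by_cases h : ok (e n)
    · simp only [if_pos h]
      exact (hDD _ h).2.2.2
    · simp only [if_neg h]
      rw [Set.empty_sdiff]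
      exact hZ0

end Pool.Agent.H55.Cos2
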