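import Pool.Agent.H55.Cos2.PCE

namespace Pool.Agent.H55.Cos2

open Set Filter Topology

/-- the sets on which all functions are continuous for the basic topology -/
def netF : Option ℕ → Set XX
  | none => {z | Inf (lv z)}
  | some n => FF n

theorem net_nhds (I : Set Idx) (z : XX) : @nhds XX (tau I) z
    = 𝓝 z ⊓ ⨅ i ∈ I, comap (phi i) (𝓝 (phi i z)) := by
  unfold tau
  rw [nhds_inf, nhds_iInf]
  congr 1
  refine iInf_congr fun i => ?_
  rw [nhds_iInf]
  refine iInf_congr fun _ => ?_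
  rw [nhds_induced]

theorem net_univ : none ∈ basic := by
  unfold basic
  exact Or.inl rfl

/-- on the sets `netF κ` the final topology agrees with the basic one -/
theorem net_tau (hB : ACTBStmt) (hC : ACTCStmt) (κ : Option ℕ) (z : XX) (hz : z ∈ netF κ) :
    @nhds XX (tau basic) z ⊓ 𝓟 (netF κ) ≤ @nhds XX (tau univ) z := by
  rw [net_nhds univ z]
  have h0 : @nhds XX (tau basic) z ⊓ 𝓟 (netF κ) ≤ 𝓝 z := by
    refine inf_le_left.trans ?_
    rw [net_nhds]
    exact inf_le_left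
  refine le_inf h0 ?_
  refine le_iInf fun i => le_iInf fun _ => ?_
  have hbas : i ∈ basic → @nhds XX (tau basic) z ⊓ 𝓟 (netF κ) ≤ comap (phi i) (𝓝 (phi i z)) := by
    intro hi
    refine inf_le_left.trans ?_
    rw [net_nhds]
    exact inf_le_right.trans ((iInf_le _ i).trans (iInf_le _ hi))
  rcases i with _ | b | c
  · exact hbas (Or.inl rfl)
  · rcases b with _ | _
    · exact hbas (Or.inr (Or.inl rfl))
    · exact hbas (Or.inr (Or.inr rfl))
  · refine map_le_iff_le_comap.1 ?_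
    show map (fc c) _ ≤ 𝓝 (fc c z)
    rcases κ with _ | n
    · have h1 : ContinuousAt (fc c) z := hB c z (Or.inl hz)
      exact (map_mono h0).trans h1
    · have h1 : ContinuousWithinAt (fc c) (FF n) z := hC c n z hz
      refine (map_mono ?_).trans h1
      exact le_inf h0 inf_le_right

/-- the pieces of the network -/
def netY {r : ℕ} (k : Fin r → ℤ) (U : Fin r → TopologicalSpace.Clopens XX)
    (κ : Fin r → Option ℕ) : Set GG :=
  io k '' {z | (∀ j, z j ∈ U j) ∧ ∀ j, z j ∈ netF (κ j)}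

theorem net_piece (hE : PCEStmt) (hB : ACTBStmt) (hC : ACTCStmt) {r : ℕ} (k : Fin r → ℤ)
    (U : Fin r → TopologicalSpace.Clopens XX) (κ : Fin r → Option ℕ) (hk : ∀ j, k j ≠ 0)
    (hU : ∀ i j, i ≠ j → Disjoint (U i : Set XX) (U j)) (O : Set GG)
    (hO : @IsOpen GG (TT univ) O) (g : GG) (hg : g ∈ O) (hgY : g ∈ netY k U κ) :
    ∃ A : Set GG, @IsOpen GG (TT basic) A ∧ g ∈ A ∧ A ∩ netY k U κ ⊆ O := by
  obtain ⟨z, ⟨hzP, hzκ⟩, rfl⟩ := hgY
  have h1 : @IsOpen (Fin r → XX) (tp univ r) (io k ⁻¹' O) :=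
    (hE univ (mem_univ _) r k U hk hU).2.1 O hO
  have h2 : io k ⁻¹' O ∈ @nhds (Fin r → XX) (tp univ r) z :=
    @IsOpen.mem_nhds _ (tp univ r) _ _ h1 hg
  have h3 : @nhds (Fin r → XX) (tp basic r) z ⊓ 𝓟 {w | ∀ j, w j ∈ netF (κ j)}
      ≤ @nhds (Fin r → XX) (tp univ r) z := by
    unfold tp
    rw [@nhds_pi _ _ (fun _ => tau univ), @nhds_pi _ _ (fun _ => tau basic)]
    unfold Filter.pi
    refine le_iInf fun j => ?_
    refine map_le_iff_le_comap.1 ?_
    refine le_trans ?_ (net_tau hB hC (κ j) (z j) (hzκ j))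
    refine le_inf ?_ ?_
    · refine map_le_iff_le_comap.2 (inf_le_left.trans (iInf_le _ j))
    · refine map_le_iff_le_comap.2 (inf_le_right.trans ?_)
      rw [comap_principal, principal_mono]
      exact fun w hw => hw j
  have h4 : io k ⁻¹' O ∈ @nhds (Fin r → XX) (tp basic r) z ⊓ 𝓟 {w | ∀ j, w j ∈ netF (κ j)} := h3 h2
  rw [mem_inf_principal] at h4
  obtain ⟨A1, hA1sub, hA1, hzA1⟩ := (@mem_nhds_iff _ (tp basic r) z _).1 h4
  obtain ⟨A', hA', hAA⟩ := (hE basic net_univ r k U hk hU).2.2 A1 hA1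
  refine ⟨A', hA', (hAA z hzP).1 hzA1, ?_⟩
  rintro _ ⟨h5, w, ⟨hwP, hwκ⟩, rfl⟩
  exact hA1sub ((hAA w hwP).2 h5) hwκ

theorem net_level (h6 : CAN6Stmt) (z : XX) : ∃ κ : Option ℕ, z ∈ netF κ := by
  by_cases h : Inf (lv z)
  · exact ⟨none, h⟩
  · rw [h6.2.1] at h
    push Not at h
    obtain ⟨n, hn⟩ := h
    exact ⟨some n, fun h7 => hn (h6.2.2 n h7)⟩

theorem cos_net (hPC : PCCStmt) (hE : PCEStmt) (hB : ACTBStmt) (hC : ACTCStmt) (hS : SECStmt)
    (h6 : CAN6Stmt) : NETStmt := by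
  have hbc : basic.Countable := by
    unfold basic
    exact Set.Countable.mono (Set.Subset.refl _)
      (((Set.finite_singleton _).insert _).insert _).countable
  have hsec : @SecondCountableTopology GG (TT basic) := (hS basic hbc net_univ).1
  obtain ⟨B, hBc, -, hBb⟩ := @TopologicalSpace.exists_countable_basis GG (TT basic) hsec
  have : Countable (TopologicalSpace.Clopens XX) := by
    rw [TopologicalSpace.Clopens.countable_iff_secondCountable]
    infer_instance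
  let J := Σ r : ℕ, (Fin r → ℤ) × (Fin r → TopologicalSpace.Clopens XX) × (Fin r → Option ℕ)
  let Y : J → Set GG := fun x => netY x.2.1 x.2.2.1 x.2.2.2
  refine ⟨⋃ x : J, (fun b => b ∩ Y x) '' B, countable_iUnion fun x => hBc.image _, ?_⟩
  intro O hO
  refine ⟨{s | s ∈ (⋃ x : J, (fun b => b ∩ Y x) '' B) ∧ s ⊆ O}, fun s hs => hs.1, ?_⟩
  ext g
  constructor
  · intro hg
    obtain ⟨r, k, U, hk, hU, z, hzP, rfl⟩ := hPC g
    choose κ hκ using fun j => net_level h6 (z j)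
    obtain ⟨A, hA, hgA, hAO⟩ := net_piece hE hB hC k U κ hk hU O hO (io k z) hg
      ⟨z, ⟨hzP, hκ⟩, rfl⟩
    obtain ⟨b, hb, hgb, hbA⟩ :=
      (@TopologicalSpace.IsTopologicalBasis.exists_subset_of_mem_open GG (TT basic) B hBb _ _ hgA hA)
    refine ⟨b ∩ Y ⟨r, k, U, κ⟩, ⟨mem_iUnion.2 ⟨⟨r, k, U, κ⟩, b, hb, rfl⟩, ?_⟩, hgb,
      ⟨z, ⟨hzP, hκ⟩, rfl⟩⟩
    exact fun y hy => hAO ⟨hbA hy.1, hy.2⟩
  · rintro ⟨s, ⟨_, hsO⟩, hgs⟩
    exact hsO hgs

end Pool.Agent.H55.Cos2
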