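import Pool.Agent.H55.Cos2.Stmts

namespace Pool.Agent.H55.Cos2

open Set Filter Topology

theorem pcc_sep {r : ℕ} (z : Fin r → XX) (hz : Function.Injective z) :
    ∃ U : Fin r → TopologicalSpace.Clopens XX, (∀ j, z j ∈ U j) ∧
      ∀ i j, i ≠ j → Disjoint (U i : Set XX) (U j) := by
  have : TotallySeparatedSpace XX := loc_compact_t2_tot_disc_iff_tot_sep.1 inferInstance
  have h1 : ∀ i j : Fin r, ∃ W : Set XX, IsClopen W ∧ z i ∈ W ∧ (j ≠ i → z j ∉ W) := by
    intro i j
    by_cases h : j = i
    · exact ⟨univ, isClopen_univ, mem_univ _, fun h' => absurd h h'⟩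
    · obtain ⟨W, hW, h2, h3⟩ := exists_isClopen_of_totally_separated
        (show z i ≠ z j from fun h4 => h (hz h4).symm)
      exact ⟨W, hW, h2, fun _ => h3⟩
  choose W hW hin hout using h1
  let V : Fin r → Set XX := fun i => ⋂ j, W i j
  have hV : ∀ i, IsClopen (V i) := fun i => isClopen_iInter_of_finite fun j => hW i j
  have hVin : ∀ i, z i ∈ V i := fun i => mem_iInter.2 fun j => hin i j
  have hVout : ∀ i j, j ≠ i → z j ∉ V i := fun i j h h' => hout i j h (mem_iInter.1 h' j)
  let N : Fin r → Set XX := fun i => ⋂ j, ⋂ (_ : j ≠ i), (V j)ᶜ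
  have hN : ∀ i, IsClopen (N i) := fun i =>
    isClopen_iInter_of_finite fun j => isClopen_iInter_of_finite fun _ => (hV j).compl
  refine ⟨fun i => ⟨V i ∩ N i, (hV i).inter (hN i)⟩, fun i => ?_, fun i j hij => ?_⟩
  · refine ⟨hVin i, mem_iInter.2 fun j => mem_iInter.2 fun hj => ?_⟩
    exact hVout j i (Ne.symm hj)
  · show Disjoint (V i ∩ N i) (V j ∩ N j)
    rw [Set.disjoint_left]
    rintro x ⟨hx1, _⟩ ⟨_, hx2⟩
    exact mem_iInter.1 (mem_iInter.1 hx2 i) hij hx1

theorem cos_pcc : PCCStmt := by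
  intro g
  classical
  let e := g.support.equivFin
  let z : Fin g.support.card → XX := fun j => ((e.symm j : g.support) : XX)
  have hz : Function.Injective z := fun a b h => e.symm.injective (Subtype.ext h)
  obtain ⟨U, hU1, hU2⟩ := pcc_sep z hz
  refine ⟨g.support.card, fun j => g (z j), U, fun j => ?_, hU2, z, hU1, ?_⟩
  · exact Finsupp.mem_support_iff.1 (e.symm j).2
  · unfold io
    have h1 : ∑ j, Finsupp.single (z j) (g (z j))
        = ∑ x : g.support, Finsupp.single (x : XX) (g x) :=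
      Equiv.sum_comp e.symm (fun x : g.support => Finsupp.single (x : XX) (g x))
    rw [h1]
    rw [Finset.sum_coe_sort g.support (fun x => Finsupp.single x (g x))]
    exact Finsupp.sum_single g

end Pool.Agent.H55.Cos2
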