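import Pool.Agent.H55.Cos2.PCL

namespace Pool.Agent.H55.Cos2

open Set Filter Topology

theorem pce_phi {I : Set Idx} {i : Idx} (hi : i ∈ I) : @Continuous XX ℝ (tau I) _ (phi i) := by
  unfold tau
  refine continuous_inf_dom_right ?_
  refine continuous_iff_le_induced.2 ?_
  exact (iInf_le _ i).trans (iInf_le _ hi)

theorem pce_coarse {I : Set Idx} : tau I ≤ (inferInstance : TopologicalSpace XX) := by
  unfold tau
  exact inf_le_left

theorem pce_open {I : Set Idx} {O : Set XX} (h : IsOpen O) : @IsOpen XX (tau I) O := by
  exact pce_coarse O h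

theorem pce_ch {I : Set Idx} {i : Idx} (hi : i ∈ I) (W : TopologicalSpace.Clopens XX) :
    @Continuous XX ℝ (tau I) _ (ch W i) := by
  classical
  have h : ch W i = fun z => ch W none z * phi i z := by
    funext z
    unfold ch
    by_cases hz : z ∈ W
    · rw [if_pos hz, if_pos hz]
      show phi i z = 1 * phi i z
      rw [one_mul]
    · rw [if_neg hz, if_neg hz, zero_mul]
  rw [h]
  have h1 : @Continuous XX ℝ (tau I) _ (ch W none) := by
    have := pcl_ch W
    exact continuous_le_dom pce_coarse this
  have h2 := pce_phi hi
  let _ : TopologicalSpace XX := tau I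
  exact Continuous.mul h1 h2

theorem pce_cont {I : Set Idx} {r : ℕ} (k : Fin r → ℤ) :
    @Continuous (Fin r → XX) GG (tp I r) (TT I) (io k) := by
  unfold TT
  refine continuous_iInf_rng.2 fun U => continuous_iInf_rng.2 fun i => continuous_iInf_rng.2
    fun hi => continuous_induced_rng.2 ?_
  have h : (⇑(hm U i) ∘ io k) = fun z => ∑ j, (k j : ℝ) * ch U i (z j) := by
    funext z
    exact hm_io U i k z
  rw [h]
  unfold tp
  let _ : TopologicalSpace XX := tau I
  refine continuous_finsetSum _ fun j _ => continuous_const.mul ?_
  exact (pce_ch hi U).comp (continuous_apply j)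

theorem pce_inj {r : ℕ} (k : Fin r → ℤ) (U : Fin r → TopologicalSpace.Clopens XX)
    (hk : ∀ j, k j ≠ 0) (hU : ∀ i j, i ≠ j → Disjoint (U i : Set XX) (U j))
    (z z' : Fin r → XX) (hz : ∀ j, z j ∈ U j) (hz' : ∀ j, z' j ∈ U j) (h : io k z = io k z') :
    z = z' := by
  classical
  funext j
  have h1 : ∀ w : Fin r → XX, (∀ j, w j ∈ U j) → io k w (z j) = if w j = z j then k j else 0 := by
    intro w hw
    unfold io
    rw [Finsupp.finsetSum_apply, Finset.sum_eq_single j]
    · rw [Finsupp.single_apply]
    · intro i _ hij
      rw [Finsupp.single_apply, if_neg]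
      intro h2
      have h3 := hU i j hij
      rw [Set.disjoint_left] at h3
      exact h3 (hw i) (h2 ▸ hz j)
    · intro h2
      exact absurd (Finset.mem_univ j) h2
  have h2 := h1 z hz
  have h3 := h1 z' hz'
  rw [h, h3, if_pos rfl] at h2
  by_contra hne
  rw [if_neg (fun h4 => hne h4.symm)] at h2
  exact hk j h2.symm

theorem cos_pce : PCEStmt := by
  intro I hI r k U hk hU
  refine ⟨pce_inj k U hk hU, fun A hA => ?_, fun A hA => ?_⟩
  · exact @IsOpen.preimage _ _ (tp I r) (TT I) _ (pce_cont k) _ hA
  · classical
    let P := {z : Fin r → XX // ∀ j, z j ∈ U j}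
    let t2 : TopologicalSpace P := TopologicalSpace.induced (fun z : P => io k z.1) (TT I)
    have hhm : ∀ (W : TopologicalSpace.Clopens XX) (i : Idx), i ∈ I →
        @Continuous P ℝ t2 _ (fun z => hm W i (io k z.1)) := by
      intro W i hi
      have h1 : @Continuous GG ℝ (TT I) _ (hm W i) := by
        unfold TT
        refine continuous_iff_le_induced.2 ?_
        exact (iInf_le _ W).trans ((iInf_le _ i).trans (iInf_le _ hi))
      exact @Continuous.comp P GG ℝ t2 (TT I) _ _ _ h1 continuous_induced_dom
    -- for a clopen `W ⊆ U j` the function sees only the coordinate `j`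
    have hsee : ∀ (j : Fin r) (W : TopologicalSpace.Clopens XX) (i : Idx), (W : Set XX) ⊆ U j →
        ∀ z : P, hm W i (io k z.1) = (k j : ℝ) * ch W i (z.1 j) := by
      intro j W i hW z
      rw [hm_io, Finset.sum_eq_single j]
      · intro l _ hl
        have h3 : z.1 l ∉ W := by
          intro h4
          have h5 := hU l j hl
          rw [Set.disjoint_left] at h5
          exact h5 (z.2 l) (hW h4)
        unfold ch
        rw [if_neg h3, mul_zero]
      · intro h2
        exact absurd (Finset.mem_univ j) h2
    have hcoord : ∀ j, @Continuous P XX t2 (tau I) (fun z => z.1 j) := by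
      intro j
      unfold tau
      refine continuous_inf_rng.2 ⟨?_, ?_⟩
      · refine @continuous_iff_continuousAt P XX t2 _ _ |>.2 fun z => ?_
        intro O hO
        rw [mem_map]
        have hO' : O ∩ (U j : Set XX) ∈ 𝓝 (z.1 j) :=
          inter_mem hO ((U j).isClopen.2.mem_nhds (z.2 j))
        have : TotallySeparatedSpace XX := loc_compact_t2_tot_disc_iff_tot_sep.1 inferInstance
        obtain ⟨W, hW, hzW, hWO⟩ := compact_exists_isClopen_in_isOpen isOpen_interior
          (mem_interior_iff_mem_nhds.2 hO')
        let W' : TopologicalSpace.Clopens XX := ⟨W, hW⟩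
        have hWU : (W' : Set XX) ⊆ U j := fun x hx => (interior_subset (hWO hx)).2
        have h1 := hhm W' none hI
        have h2 : @IsOpen P t2 {z : P | hm W' none (io k z.1) ≠ 0} :=
          @IsOpen.preimage P ℝ t2 _ _ h1 _ isOpen_ne
        refine mem_of_superset (IsOpen.mem_nhds h2 ?_) ?_
        · show hm W' none (io k z.1) ≠ 0
          rw [hsee j W' none hWU z]
          have : ch W' none (z.1 j) = 1 := by
            unfold ch
            rw [if_pos (show z.1 j ∈ W' from hzW)]
            rfl
          rw [this, mul_one]
          exact_mod_cast hk j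
        · intro y hy
          have hy' : hm W' none (io k y.1) ≠ 0 := hy
          rw [hsee j W' none hWU y] at hy'
          by_contra h3
          apply hy'
          have : y.1 j ∉ W' := fun h4 => h3 (interior_subset (hWO h4)).1
          unfold ch
          rw [if_neg this, mul_zero]
      · refine continuous_iInf_rng.2 fun i => continuous_iInf_rng.2 fun hi =>
          continuous_induced_rng.2 ?_
        have h1 := hhm (U j) i hi
        have h2 : (phi i ∘ fun z : P => z.1 j)
            = fun z : P => ((k j : ℝ))⁻¹ * hm (U j) i (io k z.1) := by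
          funext z
          rw [hsee j (U j) i Subset.rfl z]
          have h3 : ((k j : ℤ) : ℝ) ≠ 0 := by exact_mod_cast hk j
          have h4 : ch (U j) i (z.1 j) = phi i (z.1 j) := by
            unfold ch
            rw [if_pos (z.2 j)]
          rw [h4, ← mul_assoc, inv_mul_cancel₀ h3, one_mul]
          rfl
        rw [h2]
        exact Continuous.mul continuous_const h1
    have hval : @Continuous P (Fin r → XX) t2 (tp I r) (fun z => z.1) := by
      unfold tp
      let _ : TopologicalSpace XX := tau I
      exact continuous_pi hcoord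
    have h1 : @IsOpen P t2 ((fun z : P => z.1) ⁻¹' A) :=
      @IsOpen.preimage _ _ t2 (tp I r) _ hval _ hA
    obtain ⟨A', hA', h2⟩ := h1
    refine ⟨A', hA', fun z hz => ?_⟩
    have h3 := congrArg (fun s : Set P => (⟨z, hz⟩ : P) ∈ s) h2
    simp only [mem_preimage] at h3
    exact (iff_of_eq h3).symm

end Pool.Agent.H55.Cos2
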