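import Pool.Agent.H55.Cos2.Stmts

set_option warn.classDefReducibility false

namespace Pool.Agent.H55.Cos2

open Set Filter Topology

theorem cos_sec (hG : GTGStmt) : SECStmt := by
  intro I hI hn
  have hcl : Countable (TopologicalSpace.Clopens XX) :=
    TopologicalSpace.Clopens.countable_iff_secondCountable.mpr inferInstance
  have h2 : @SecondCountableTopology GG (TT I) := by
    unfold TT
    refine TopologicalSpace.secondCountableTopology_iInf fun U => ?_
    have : Countable I := hI.to_subtype
    rw [iInf_subtype']
    refine TopologicalSpace.secondCountableTopology_iInf fun i => ?_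
    exact TopologicalSpace.secondCountableTopology_induced _ _ _
  refine ⟨h2, ?_⟩
  let t := TT I
  have hg : IsTopologicalAddGroup GG := hG.1 I
  have ht : T2Space GG := hG.2 I hn
  have h2' : SecondCountableTopology GG := h2
  have : RegularSpace GG := inferInstance
  have : T3Space GG := inferInstance
  exact TopologicalSpace.metrizableSpace_of_t3_secondCountable GG

end Pool.Agent.H55.Cos2
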