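import Pool.Agent.H55.Cos2.Stmts

/-!
COS modules SIG and COD.
-/

set_option warn.classDefReducibility false

namespace Pool.Agent.H55.Cos2

open Set Filter Topology

theorem sig_second : @SecondCountableTopology XX sig := by
  let t : Option Bool → TopologicalSpace XX := fun o => match o with
    | none => (inferInstance : TopologicalSpace XX)
    | some false => TopologicalSpace.induced g1 inferInstance
    | some true => TopologicalSpace.induced g2 inferInstance
  have h : sig = ⨅ o, t o := by
    rw [iInf_option]
    have : (⨅ b : Bool, t (some b)) = t (some true) ⊓ t (some false) := iInf_bool_eq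
    rw [this]
    show (inferInstance : TopologicalSpace XX) ⊓ (_ ⊓ _) = _
    rw [inf_comm (TopologicalSpace.induced g1 inferInstance)]
  rw [h]
  refine TopologicalSpace.secondCountableTopology_iInf (fun o => ?_)
  match o with
  | none => exact (inferInstance : SecondCountableTopology XX)
  | some false => exact TopologicalSpace.secondCountableTopology_induced _ _ _
  | some true => exact TopologicalSpace.secondCountableTopology_induced _ _ _

theorem sigB_exists : ∃ B : ℕ → Set XX, (∀ n, @IsOpen XX sig (B n)) ∧
      ∀ U : Set XX, @IsOpen XX sig U → ∀ z ∈ U, ∃ n, z ∈ B n ∧ B n ⊆ U := by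
  obtain ⟨b, hc, _, hb⟩ := @TopologicalSpace.exists_countable_basis XX sig sig_second
  have hc' : (insert ∅ b).Countable := hc.insert ∅
  obtain ⟨f, hf⟩ := hc'.exists_eq_range ⟨∅, mem_insert _ _⟩
  refine ⟨f, fun n => ?_, fun U hU z hz => ?_⟩
  · have h1 : f n ∈ insert ∅ b := by rw [hf]; exact mem_range_self n
    rcases h1 with h1 | h1
    · rw [h1]; exact @isOpen_empty XX sig
    · exact @TopologicalSpace.IsTopologicalBasis.isOpen XX sig _ _ hb h1
  · obtain ⟨v, hv, hzv, hvU⟩ := @TopologicalSpace.IsTopologicalBasis.exists_subset_of_mem_open XX sig b hb z U hz hU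
    have h1 : v ∈ insert ∅ b := mem_insert_of_mem _ hv
    rw [hf] at h1
    obtain ⟨n, rfl⟩ := h1
    exact ⟨n, hzv, hvU⟩

theorem cos_sig : SIGStmt := by
  have h : sigB = sigB_exists.choose := by
    unfold sigB
    rw [dif_pos sigB_exists]
  unfold SIGStmt
  rw [h]
  exact sigB_exists.choose_spec

end Pool.Agent.H55.Cos2
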