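import Pool.Agent.H55.Cos2.ZDBase

namespace Pool.Agent.H55.Cos2

open Set Filter Topology

theorem cos_zda : ZDAStmt := by
  intro M _ _ s hs
  rw [zdx_szd_iff]
  intro P Q hP hQ hPQ
  -- a clopen cover
  have h1 : ∀ x : s, ∃ C : Set s, IsClopen C ∧ x ∈ C ∧ (C ∩ P = ∅ ∨ C ∩ Q = ∅) := by
    intro x
    by_cases hx : x ∈ P
    · have hxQ : x ∉ Q := fun h => Set.disjoint_left.1 hPQ hx h
      obtain ⟨C, hC, hxC, hCQ⟩ := zdx_zd_imp hs x Qᶜ hQ.isOpen_compl hxQ
      refine ⟨C, hC, hxC, Or.inr ?_⟩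
      ext y
      simp only [mem_inter_iff, mem_empty_iff_false, iff_false, not_and]
      exact fun h => hCQ h
    · obtain ⟨C, hC, hxC, hCP⟩ := zdx_zd_imp hs x Pᶜ hP.isOpen_compl hx
      refine ⟨C, hC, hxC, Or.inl ?_⟩
      ext y
      simp only [mem_inter_iff, mem_empty_iff_false, iff_false, not_and]
      exact fun h => hCP h
  choose C hC hxC hCPQ using h1
  obtain ⟨T, hT, hTU⟩ := TopologicalSpace.isOpen_iUnion_countable C (fun x => (hC x).2)
  rcases isEmpty_or_nonempty s with hne | hne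
  · exact ⟨∅, isClopen_empty, fun x => (hne.false x).elim, by simp⟩
  -- enumerate
  have hTne : T.Nonempty := by
    by_contra hcon
    rw [not_nonempty_iff_eq_empty] at hcon
    obtain ⟨x⟩ := hne
    have : x ∈ ⋃ i, C i := mem_iUnion.2 ⟨x, hxC x⟩
    rw [← hTU, hcon] at this
    simp at this
  obtain ⟨e, he⟩ := hT.exists_eq_range hTne
  have hcov : ∀ x : s, ∃ n : ℕ, x ∈ C (e n) := by
    intro x
    have : x ∈ ⋃ i, C i := mem_iUnion.2 ⟨x, hxC x⟩
    rw [← hTU, he] at this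
    simpa using this
  -- disjointify
  have hD : ∀ n, IsClopen (C (e n) \ ⋃ m ∈ Finset.range n, C (e m)) := by
    intro n
    apply (hC _).diff
    exact isClopen_biUnion_finset (fun m _ => hC _)
  have hDcov : ∀ x : s, ∃ n : ℕ, x ∈ C (e n) \ ⋃ m ∈ Finset.range n, C (e m) := by
    classical
    intro x
    refine ⟨Nat.find (hcov x), Nat.find_spec (hcov x), ?_⟩
    simp only [mem_iUnion, not_exists]
    intro m hm
    exact Nat.find_min (hcov x) (Finset.mem_range.1 hm)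
  have hDdisj : ∀ (x : s) (n m : ℕ), x ∈ C (e n) \ ⋃ m ∈ Finset.range n, C (e m) →
      x ∈ C (e m) \ ⋃ k ∈ Finset.range m, C (e k) → n = m := by
    intro x n m hn hm
    by_contra hnm
    rcases lt_or_gt_of_ne hnm with h | h
    · apply hm.2
      simp only [mem_iUnion]
      exact ⟨n, Finset.mem_range.2 h, hn.1⟩
    · apply hn.2
      simp only [mem_iUnion]
      exact ⟨m, Finset.mem_range.2 h, hm.1⟩
  refine ⟨⋃ n ∈ {n | C (e n) ∩ Q = ∅}, (C (e n) \ ⋃ m ∈ Finset.range n, C (e m)),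
    ⟨⟨?_⟩, ?_⟩, ?_, ?_⟩
  · have : (⋃ n ∈ {n | C (e n) ∩ Q = ∅}, (C (e n) \ ⋃ m ∈ Finset.range n, C (e m)))ᶜ =
        ⋃ n ∈ {n | C (e n) ∩ Q ≠ ∅}, (C (e n) \ ⋃ m ∈ Finset.range n, C (e m)) := by
      ext x
      simp only [mem_compl_iff, mem_iUnion, not_exists, mem_setOf_eq]
      constructor
      · intro h
        obtain ⟨n, hn⟩ := hDcov x
        exact ⟨n, fun hQ' => h n hQ' hn, hn⟩
      · rintro ⟨n, hn1, hn2⟩ m hm1 hm2
        have := hDdisj x n m hn2 hm2
        subst this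
        exact hn1 hm1
    rw [this]
    exact isOpen_biUnion (fun n _ => (hD n).2)
  · exact isOpen_biUnion (fun n _ => (hD n).2)
  · intro x hx
    obtain ⟨n, hn⟩ := hDcov x
    simp only [mem_iUnion, mem_setOf_eq]
    refine ⟨n, ?_, hn⟩
    rcases hCPQ (e n) with h | h
    · exfalso
      have : x ∈ C (e n) ∩ P := ⟨hn.1, hx⟩
      rw [h] at this
      exact this
    · exact h
  · rw [Set.disjoint_left]
    intro x hx hx'
    simp only [mem_iUnion, mem_setOf_eq] at hx'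
    obtain ⟨n, hn1, hn2⟩ := hx'
    have : x ∈ C (e n) ∩ Q := ⟨hn2.1, hx⟩
    rw [hn1] at this
    exact this

end Pool.Agent.H55.Cos2
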