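import Pool.Agent.H55.Cos2.ZDBase

namespace Pool.Agent.H55.Cos2

open Set Filter Topology

/-- one step of the construction -/
theorem zdb_step {X : Type} [TopologicalSpace X] [NormalSpace X] (K : Set X) (hK : IsClosed K)
    (hS : ∀ P Q : Set K, IsClosed P → IsClosed Q → Disjoint P Q →
      ∃ C : Set K, IsClopen C ∧ P ⊆ C ∧ Disjoint Q C)
    (U V : Set X) (hUV : Disjoint (closure U) (closure V)) :
    ∃ U' V' : Set X, IsOpen U' ∧ IsOpen V' ∧ closure U ⊆ U' ∧ closure V ⊆ V' ∧
      K ⊆ U' ∪ V' ∧ Disjoint (closure U') (closure V') := by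
  obtain ⟨C, hC, h1, h2⟩ := hS (Subtype.val ⁻¹' closure U) (Subtype.val ⁻¹' closure V)
    (isClosed_closure.preimage continuous_subtype_val)
    (isClosed_closure.preimage continuous_subtype_val)
    (hUV.preimage _)
  have hc1 : IsClosed (closure U ∪ Subtype.val '' C) :=
    isClosed_closure.union (hK.isClosedEmbedding_subtypeVal.isClosedMap _ hC.1)
  have hc2 : IsClosed (closure V ∪ Subtype.val '' Cᶜ) :=
    isClosed_closure.union (hK.isClosedEmbedding_subtypeVal.isClosedMap _ hC.compl.1)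
  have hdisj : Disjoint (closure U ∪ Subtype.val '' C) (closure V ∪ Subtype.val '' Cᶜ) := by
    rw [Set.disjoint_left]
    rintro x (hx | ⟨y, hy, rfl⟩) (hx' | ⟨z, hz, hzy⟩)
    · exact Set.disjoint_left.1 hUV hx hx'
    · subst hzy
      exact hz (h1 hx)
    · exact Set.disjoint_left.1 h2 (show y ∈ Subtype.val ⁻¹' closure V from hx') hy
    · have : z = y := Subtype.ext hzy
      subst this
      exact hz hy
  obtain ⟨U', hU', h3, h4⟩ := normal_exists_closure_subset hc1
    (hc2.isOpen_compl) (Set.disjoint_left.1 hdisj)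
  obtain ⟨V', hV', h5, h6⟩ := normal_exists_closure_subset hc2
    (isClosed_closure (s := U')).isOpen_compl (fun x hx hx' => h4 hx' hx)
  refine ⟨U', V', hU', hV', subset_union_left.trans h3, subset_union_left.trans h5, ?_, ?_⟩
  · intro x hx
    by_cases hxC : (⟨x, hx⟩ : K) ∈ C
    · exact Or.inl (h3 (Or.inr ⟨⟨x, hx⟩, hxC, rfl⟩))
    · exact Or.inr (h5 (Or.inr ⟨⟨x, hx⟩, hxC, rfl⟩))
  · rw [Set.disjoint_left]
    exact fun x hx hx' => h6 hx' hx

/-- the sum theorem in a normal space -/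
theorem zdb_sum {X : Type} [TopologicalSpace X] [NormalSpace X] (K : ℕ → Set X)
    (hK : ∀ n, IsClosed (K n)) (hcov : ∀ x, ∃ n, x ∈ K n)
    (hS : ∀ n, ∀ P Q : Set (K n), IsClosed P → IsClosed Q → Disjoint P Q →
      ∃ C : Set (K n), IsClopen C ∧ P ⊆ C ∧ Disjoint Q C)
    (P Q : Set X) (hP : IsClosed P) (hQ : IsClosed Q) (hPQ : Disjoint P Q) :
    ∃ C : Set X, IsClopen C ∧ P ⊆ C ∧ Disjoint Q C := by
  -- start
  have hstart : ∃ p : Set X × Set X, Disjoint (closure p.1) (closure p.2) ∧ P ⊆ p.1 ∧ Q ⊆ p.2 := by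
    refine ⟨(P, Q), ?_, Subset.rfl, Subset.rfl⟩
    rw [hP.closure_eq, hQ.closure_eq]
    exact hPQ
  obtain ⟨p₀, hp₀, hPp, hQp⟩ := hstart
  have hstep : ∀ (n : ℕ) (p : {p : Set X × Set X // Disjoint (closure p.1) (closure p.2)}),
      ∃ p' : {p : Set X × Set X // Disjoint (closure p.1) (closure p.2)},
        IsOpen p'.1.1 ∧ IsOpen p'.1.2 ∧ closure p.1.1 ⊆ p'.1.1 ∧ closure p.1.2 ⊆ p'.1.2 ∧
        K n ⊆ p'.1.1 ∪ p'.1.2 := by
    rintro n ⟨⟨U, V⟩, hUV⟩
    obtain ⟨U', V', h1, h2, h3, h4, h5, h6⟩ := zdb_step (K n) (hK n) (hS n) U V hUV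
    exact ⟨⟨(U', V'), h6⟩, h1, h2, h3, h4, h5⟩
  choose f hf1 hf2 hf3 hf4 hf5 using hstep
  let w : ℕ → {p : Set X × Set X // Disjoint (closure p.1) (closure p.2)} :=
    fun n => Nat.rec ⟨p₀, hp₀⟩ (fun n p => f n p) n
  have hw : ∀ n, w (n + 1) = f n (w n) := fun n => rfl
  have hmono1 : Monotone (fun n => (w n).1.1) := by
    apply monotone_nat_of_le_succ
    intro n
    change (w n).1.1 ⊆ (w (n + 1)).1.1
    rw [hw]
    exact subset_closure.trans (hf3 n (w n))
  have hmono2 : Monotone (fun n => (w n).1.2) := by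
    apply monotone_nat_of_le_succ
    intro n
    change (w n).1.2 ⊆ (w (n + 1)).1.2
    rw [hw]
    exact subset_closure.trans (hf4 n (w n))
  have hop1 : ∀ n, IsOpen (w (n + 1)).1.1 := fun n => by rw [hw]; exact hf1 n _
  have hop2 : ∀ n, IsOpen (w (n + 1)).1.2 := fun n => by rw [hw]; exact hf2 n _
  have hdis : ∀ n, Disjoint (w n).1.1 (w n).1.2 := fun n =>
    (w n).2.mono subset_closure subset_closure
  have hdis' : ∀ x n m, x ∈ (w n).1.1 → x ∈ (w m).1.2 → False := by
    intro x n m hn hm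
    exact Set.disjoint_left.1 (hdis (max n m)) (hmono1 (le_max_left n m) hn)
      (hmono2 (le_max_right n m) hm)
  have hcompl : (⋃ n, (w (n + 1)).1.1)ᶜ = ⋃ n, (w (n + 1)).1.2 := by
    ext x
    simp only [mem_compl_iff, mem_iUnion, not_exists]
    constructor
    · intro h
      obtain ⟨n, hn⟩ := hcov x
      have := hf5 n (w n) hn
      rw [← hw] at this
      rcases this with h1 | h1
      · exact absurd h1 (h n)
      · exact ⟨n, h1⟩
    · rintro ⟨n, hn⟩ m hm
      exact hdis' x (m + 1) (n + 1) hm hn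
  have hP0 : P ⊆ (w 0).1.1 := hPp
  have hQ0 : Q ⊆ (w 0).1.2 := hQp
  refine ⟨⋃ n, (w (n + 1)).1.1, ⟨⟨?_⟩, isOpen_iUnion hop1⟩, ?_, ?_⟩
  · rw [hcompl]
    exact isOpen_iUnion hop2
  · intro x hx
    exact mem_iUnion.2 ⟨0, hmono1 (Nat.zero_le 1) (hP0 hx)⟩
  · rw [Set.disjoint_left]
    intro x hx hx'
    rw [mem_iUnion] at hx'
    obtain ⟨n, hn⟩ := hx'
    exact hdis' x (n + 1) 0 hn (hQ0 hx)

theorem cos_zdb : ZDBStmt := by
  intro M _ _ s K hK hcov hS
  rw [zdx_szd_iff]
  have hSn : ∀ n, ∀ P Q : Set ((Subtype.val ⁻¹' K n : Set s) : Set s), IsClosed P → IsClosed Q →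
      Disjoint P Q → ∃ C : Set ((Subtype.val ⁻¹' K n : Set s) : Set s), IsClopen C ∧ P ⊆ C ∧
        Disjoint Q C := by
    intro n P Q hP hQ hPQ
    let e : ((Subtype.val ⁻¹' K n : Set s) : Set s) ≃ₜ (s ∩ K n : Set M) :=
      { toFun := fun x => ⟨x.1.1, x.1.2, x.2⟩
        invFun := fun x => ⟨⟨x.1, x.2.1⟩, x.2.2⟩
        left_inv := fun x => rfl
        right_inv := fun x => rfl
        continuous_toFun := by
          apply Continuous.subtype_mk
          exact continuous_subtype_val.comp continuous_subtype_val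
        continuous_invFun := by
          apply Continuous.subtype_mk
          apply Continuous.subtype_mk
          exact continuous_subtype_val }
    obtain ⟨C, hC, h1, h2⟩ := (zdx_szd_iff _).1 (hS n) (e.symm ⁻¹' P) (e.symm ⁻¹' Q)
      (hP.preimage e.symm.continuous) (hQ.preimage e.symm.continuous) (hPQ.preimage _)
    refine ⟨e ⁻¹' C, hC.preimage e.continuous, ?_, ?_⟩
    · intro x hx
      apply h1
      change e.symm (e x) ∈ P
      rw [e.symm_apply_apply]
      exact hx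
    · rw [Set.disjoint_left]
      intro x hx hx'
      refine Set.disjoint_left.1 h2 ?_ (show e x ∈ C from hx')
      change e.symm (e x) ∈ Q
      rw [e.symm_apply_apply]
      exact hx
  intro P Q hP hQ hPQ
  letI : MetricSpace M := TopologicalSpace.metrizableSpaceMetric M
  exact zdb_sum (fun n => (Subtype.val ⁻¹' K n : Set s))
    (fun n => (hK n).preimage continuous_subtype_val)
    (fun x => by
      have := hcov x.2
      rw [mem_iUnion] at this
      exact this) hSn P Q hP hQ hPQ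

end Pool.Agent.H55.Cos2
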