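import Pool.Agent.H55.Cos2.SLAB
import Pool.Agent.H55.Cos2.Base
import Pool.Agent.H55.Cos2.CAN
import Pool.Agent.H55.Cos2.NB
import Pool.Agent.H55.Cos2.FK
import Pool.Agent.H55.Cos2.SIG
import Pool.Agent.H55.Cos2.COD
import Pool.Agent.H55.Cos2.E0
import Pool.Agent.H55.Cos2.E1
import Pool.Agent.H55.Cos2.E2
import Pool.Agent.H55.Cos2.E3
import Pool.Agent.H55.Cos2.E4
import Pool.Agent.H55.Cos2.E5
import Pool.Agent.H55.Cos2.E6
import Pool.Agent.H55.Cos2.E7
import Pool.Agent.H55.Cos2.IND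
import Pool.Agent.H55.Cos2.GTG
import Pool.Agent.H55.Cos2.DEI
import Pool.Agent.H55.Cos2.PCC
import Pool.Agent.H55.Cos2.PCL
import Pool.Agent.H55.Cos2.PCE
import Pool.Agent.H55.Cos2.PCD
import Pool.Agent.H55.Cos2.SEC
import Pool.Agent.H55.Cos2.KDE
import Pool.Agent.H55.Cos2.NET
import Pool.Agent.H55.Cos2.LIN
import Pool.Agent.H55.Cos2.DIM
import Pool.Agent.H55.Cos2.IGG
import Pool.Agent.H55.Cos2.FIN
import Pool.Agent.H55.Cos2.TTAM
import Pool.Agent.H55.Cos2.PTAM
import Pool.Agent.H55.Cos2.WEI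
import Pool.Agent.H55.Cos2.DEC
import Pool.Agent.H55.Cos2.ZDA
import Pool.Agent.H55.Cos2.ZDB
import Pool.Agent.H55.Cos2.ZDC
import Pool.Agent.H55.Cos2.ZDD

/-!
Assembly: a topological abelian group with a countable network, dim at most 1 and ind at least 2.
-/

namespace Pool.Agent.H55.Cos2

theorem main : FINStmt := by
  have hfkn : FKNStmt := cos_fkn cos_nbh (cos_actc cos_tcon)
  have hacta := cos_acta cos_tcon
  have hactb := cos_actb cos_tcon
  have hactc := cos_actc cos_tcon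
  have hnbx : NBXStmt := cos_nbx cos_nbh hacta hactb
  have he1 : E1Stmt := cos_e1 hfkn cos_can1 cos_can4 cos_can6
  have he2 : E2Stmt := cos_e2 he1 hnbx cos_can3 cos_can5
  have he3 : E3Stmt := cos_e3 hnbx
  have he4 : E4Stmt := cos_e4 cos_can2 cos_can6 hfkn he3
  have he5 : E5Stmt := cos_e5 cos_can2 cos_can3 cos_can7 he2 (cos_e0 hnbx) he4
  have he7 : E7Stmt := cos_e7 (cos_nbw cos_nbh hacta hactb) (cos_nbi cos_nbh hacta hactb) cos_can6
  have hind : INDStmt := cos_ind (cos_fko hfkn) (cos_cod cos_sig cos_can6) he5 (cos_e6 cos_can6) he7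
  have hdei : DEIStmt := cos_dei cos_gtg
  have hsec : SECStmt := cos_sec cos_gtg
  have hkde : KDEStmt := cos_kde (cos_ptam cos_ttam) (cos_dec (cos_wei cos_slab))
  have hpcl : PCLStmt := cos_pcl cos_gtg
  have hpcd : PCDStmt := cos_pcd hkde cos_pce hpcl
  have hzdd : ZDDStmt := cos_zdd cos_zda cos_zdb cos_zdc
  have hdic : DICStmt := cos_dic cos_pcc hpcl hpcd hsec hzdd
  have hnet : NETStmt := cos_net cos_pcc cos_pce hactb hactc hsec cos_can6
  exact cos_fin cos_gtg hnet (cos_dim (cos_lin hnet) hdic) (cos_igg hdei hind)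

end Pool.Agent.H55.Cos2
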