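import Pool.Agent.H55.Cos2.Stmts

/-!
Module SLAB: slabs of rationally independent combinations of tame functions.
-/

namespace Pool.Agent.H55.Cos2

open Set Filter Topology

/-- the slab -/
def Slb {Z : Type} {n : ℕ} (F : Fin n → Z → ℝ) (k : Fin n → ℝ) (J : Finset (Fin n)) (s τ : ℝ)
    (z : Z) : Prop :=
  |∑ m ∈ J, k m * F m z - s| ≤ τ

/-- a good code on a slab -/
def GoodC {Z : Type} [TopologicalSpace Z] {n : ℕ} (F : Fin n → Z → ℝ) (k : Fin n → ℝ)
    (J : Finset (Fin n)) (η s τ : ℝ) (c : Z → ℕ) : Prop :=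
  (∀ z, Slb F k J s τ z → ∃ O ∈ 𝓝 z, ∃ δ : ℝ, 0 < δ ∧ ∀ z' ∈ O, Slb F k J s τ z' →
       (∀ m ∈ J, |F m z' - F m z| < δ) → c z' = c z) ∧
    (∀ z z', Slb F k J s τ z → Slb F k J s τ z' → c z = c z' → ∀ m ∈ J, |F m z - F m z'| ≤ η)

def SLJ {Z : Type} [TopologicalSpace Z] {n : ℕ} (F : Fin n → Z → ℝ) (k : Fin n → ℝ)
    (J : Finset (Fin n)) : Prop :=
  ∀ η : ℝ, 0 < η → ∃ τ : ℝ, 0 < τ ∧ ∀ s : ℝ, ∃ c : Z → ℕ, GoodC F k J η s τ c

theorem gap_min (S : Finset ℝ) : ∃ μ : ℝ, 0 < μ ∧ ∀ x ∈ S, ∀ y ∈ S, x ≠ y → μ ≤ |x - y| := by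
  classical
  by_cases h : (S.offDiag).Nonempty
  · refine ⟨(S.offDiag.image fun p => |p.1 - p.2|).min' (h.image _), ?_, ?_⟩
    · rw [Finset.lt_min'_iff]
      intro y hy
      rw [Finset.mem_image] at hy
      obtain ⟨p, hp, rfl⟩ := hy
      rw [Finset.mem_offDiag] at hp
      exact abs_pos.mpr (sub_ne_zero.mpr hp.2.2)
    · intro x hx y hy hxy
      refine Finset.min'_le _ _ ?_
      rw [Finset.mem_image]
      exact ⟨(x, y), Finset.mem_offDiag.mpr ⟨hx, hy, hxy⟩, rfl⟩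
  · refine ⟨1, one_pos, fun x hx y hy hxy => ?_⟩
    exact absurd ⟨(x, y), Finset.mem_offDiag.mpr ⟨hx, hy, hxy⟩⟩ h

/-- the values at stuck points -/
theorem stuck_gap {Z : Type} {n : ℕ} (F : Fin n → Z → ℝ) (k : Fin n → ℝ)
    (hk : LinearIndependent ℚ k) (J : Finset (Fin n)) (T : Z → Prop) (V : Fin n → Finset ℚ)
    (hT : ∀ z, T z → ∀ m ∈ J, ∃ q ∈ V m, F m z = (q : ℝ)) :
    ∃ μ : ℝ, 0 < μ ∧ ∀ z z', T z → T z' →
      |∑ m ∈ J, k m * F m z - ∑ m ∈ J, k m * F m z'| < μ → ∀ m ∈ J, F m z = F m z' := by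
  classical
  let W : Finset (Fin n → ℚ) := Fintype.piFinset (fun m => if m ∈ J then V m else {0})
  obtain ⟨μ, hμ, hgap⟩ := gap_min (W.image fun p => ∑ m, k m * (p m : ℝ))
  have key : ∀ z, T z → ∃ p ∈ W, (∀ m ∈ J, F m z = (p m : ℝ)) ∧
      ∑ m ∈ J, k m * F m z = ∑ m, k m * (p m : ℝ) := by
    intro z hz
    have h1 : ∀ m, ∃ q : ℚ, q ∈ (if m ∈ J then V m else {0}) ∧ (m ∈ J → F m z = (q : ℝ)) ∧
        (m ∉ J → q = 0) := by
      intro m
      by_cases hm : m ∈ J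
      · obtain ⟨q, hq, h⟩ := hT z hz m hm
        exact ⟨q, by rw [if_pos hm]; exact hq, fun _ => h, fun h' => absurd hm h'⟩
      · exact ⟨0, by rw [if_neg hm]; simp, fun h' => absurd h' hm, fun _ => rfl⟩
    choose p hp1 hp2 hp3 using h1
    refine ⟨p, Fintype.mem_piFinset.mpr hp1, hp2, ?_⟩
    rw [← Finset.sum_subset (Finset.subset_univ J)]
    · exact Finset.sum_congr rfl fun m hm => by rw [hp2 m hm]
    · intro m _ hm
      rw [hp3 m hm]; simp
  refine ⟨μ, hμ, fun z z' hz hz' hlt => ?_⟩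
  obtain ⟨p, hpW, hp1, hp2⟩ := key z hz
  obtain ⟨p', hpW', hp1', hp2'⟩ := key z' hz'
  rw [hp2, hp2'] at hlt
  have h3 : ∑ m, k m * (p m : ℝ) = ∑ m, k m * (p' m : ℝ) := by
    by_contra hne
    exact absurd (hgap _ (Finset.mem_image_of_mem _ hpW) _ (Finset.mem_image_of_mem _ hpW') hne)
      (not_le.mpr hlt)
  have h4 : ∑ m, (p m - p' m) • k m = 0 := by
    have : ∀ m, (p m - p' m) • k m = k m * (p m : ℝ) - k m * (p' m : ℝ) := by
      intro m
      rw [Rat.smul_def]; push_cast; ring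
    simp_rw [this]
    rw [Finset.sum_sub_distrib, h3, sub_self]
  have h5 := Fintype.linearIndependent_iff.mp hk _ h4
  intro m hm
  rw [hp1 m hm, hp1' m hm, sub_eq_zero.mp (h5 m)]

/-- first index of a clopen set containing `z` is locally constant -/
theorem find_const {Z : Type} [TopologicalSpace Z] (P : ℕ → Set Z) (hP : ∀ e, IsClopen (P e))
    (z : Z) (e : ℕ) (he : z ∈ P e) (hlt : ∀ e' < e, z ∉ P e') :
    {z' | z' ∈ P e ∧ ∀ e' < e, z' ∉ P e'} ∈ 𝓝 z := by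
  have h : {z' | z' ∈ P e ∧ ∀ e' < e, z' ∉ P e'} = P e ∩ ⋂ e' ∈ Finset.range e, (P e')ᶜ := by
    ext x; simp
  rw [h]
  refine Filter.inter_mem ((hP e).2.mem_nhds he) ?_
  rw [Filter.biInter_finset_mem]
  intro e' he'
  exact (hP e').compl.2.mem_nhds (hlt e' (Finset.mem_range.mp he'))

theorem slab_step {Z : Type} [TopologicalSpace Z] {n : ℕ} (F : Fin n → Z → ℝ) (k : Fin n → ℝ)
    (hT : ∀ m, Tame (F m)) (hk : LinearIndependent ℚ k) (J : Finset (Fin n)) (hJ : J.Nonempty)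
    (ih : ∀ m ∈ J, SLJ F k (J.erase m)) : SLJ F k J := by
  classical
  intro η hη
  -- constants of the induction hypothesis
  have h1 : ∀ m, ∃ τ : ℝ, 0 < τ ∧ (m ∈ J → ∀ s : ℝ, ∃ c : Z → ℕ,
      GoodC F k (J.erase m) (η / 4) s τ c) := by
    intro m
    by_cases hm : m ∈ J
    · obtain ⟨τ, hτ, h⟩ := ih m hm (η / 4) (by linarith)
      exact ⟨τ, hτ, fun _ => h⟩
    · exact ⟨1, one_pos, fun h => absurd h hm⟩
  choose τf hτf0 hτf using h1
  obtain ⟨τ', hτ'0, hτ'⟩ : ∃ τ' : ℝ, 0 < τ' ∧ ∀ m ∈ J, τ' ≤ τf m :=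
    ⟨J.inf' hJ τf, by rw [Finset.lt_inf'_iff]; exact fun m _ => hτf0 m,
      fun m hm => Finset.inf'_le _ hm⟩
  obtain ⟨K, hK0, hK⟩ : ∃ K : ℝ, 0 < K ∧ ∀ m, |k m| ≤ K := by
    refine ⟨∑ m, |k m| + 1, by positivity, fun m => ?_⟩
    have := Finset.single_le_sum (f := fun m => |k m|) (fun i _ => abs_nonneg _) (Finset.mem_univ m)
    linarith
  obtain ⟨ε, hε0, hε1, hε2⟩ : ∃ ε : ℝ, 0 < ε ∧ K * ε ≤ τ' / 2 ∧ ε ≤ η / 4 := by
    refine ⟨min (τ' / (2 * K)) (η / 4), lt_min (by positivity) (by linarith), ?_, min_le_right _ _⟩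
    calc K * min (τ' / (2 * K)) (η / 4) ≤ K * (τ' / (2 * K)) :=
          mul_le_mul_of_nonneg_left (min_le_left _ _) hK0.le
      _ = τ' / 2 := by field_simp
  -- tameness
  have h2 := fun m => hT m ε hε0
  choose V O hOc hOd hOo hOV using h2
  -- one sequence of clopen sets
  let me : ℕ → Fin n := fun e => if h : (Nat.unpair e).1 < n then ⟨(Nat.unpair e).1, h⟩ else hJ.choose
  let P : ℕ → Set Z := fun e => if me e ∈ J ∧ (me e : ℕ) = (Nat.unpair e).1
    then O (me e) (Nat.unpair e).2 else ∅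
  have hPc : ∀ e, IsClopen (P e) := by
    intro e
    by_cases h : me e ∈ J ∧ (me e : ℕ) = (Nat.unpair e).1
    · simp only [P, if_pos h]; exact hOc _ _
    · simp only [P, if_neg h]; exact isClopen_empty
  have hPJ : ∀ e, ∀ z ∈ P e, me e ∈ J := by
    intro e z hz
    by_cases h : me e ∈ J ∧ (me e : ℕ) = (Nat.unpair e).1
    · exact h.1
    · simp only [P, if_neg h] at hz; exact hz.elim
  have hPo : ∀ e, ∀ z ∈ P e, ∀ z' ∈ P e, |F (me e) z - F (me e) z'| ≤ ε := by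
    intro e z hz z' hz'
    by_cases h : me e ∈ J ∧ (me e : ℕ) = (Nat.unpair e).1
    · simp only [P, if_pos h] at hz hz'; exact hOo _ _ z hz z' hz'
    · simp only [P, if_neg h] at hz; exact hz.elim
  have hPV : ∀ z, (∀ e, z ∉ P e) → ∀ m ∈ J, ∃ q ∈ V m, F m z = (q : ℝ) := by
    intro z hz m hm
    refine hOV m z fun i hi => ?_
    have h3 : me (Nat.pair m i) = m := by
      simp only [me, Nat.unpair_pair]
      rw [dif_pos m.2]
    refine hz (Nat.pair m i) ?_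
    simp only [P, h3, Nat.unpair_pair, hm, true_and, if_true]
    exact hi
  obtain ⟨μ, hμ0, hμ⟩ := stuck_gap F k hk J (fun z => ∀ e, z ∉ P e) V hPV
  refine ⟨min (μ / 3) (τ' / 2), lt_min (by linarith) (by linarith), fun s => ?_⟩
  set τ := min (μ / 3) (τ' / 2) with hτ
  have hτ1 : τ ≤ μ / 3 := min_le_left _ _
  have hτ2 : τ ≤ τ' / 2 := min_le_right _ _
  -- codes for the cells
  have h4 : ∀ e, ∃ c : Z → ℕ, (P e).Nonempty → ∃ v : ℝ, (∀ z ∈ P e, |F (me e) z - v| ≤ ε) ∧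
      GoodC F k (J.erase (me e)) (η / 4) (s - k (me e) * v) (τf (me e)) c := by
    intro e
    by_cases h : (P e).Nonempty
    · obtain ⟨z0, hz0⟩ := h
      obtain ⟨c, hc⟩ := hτf (me e) (hPJ e z0 hz0) (s - k (me e) * F (me e) z0)
      exact ⟨c, fun _ => ⟨F (me e) z0, fun z hz => hPo e z hz z0 hz0, hc⟩⟩
    · exact ⟨fun _ => 0, fun h' => absurd h' h⟩
  choose cc hcc using h4
  -- points of the slab in a cell lie in the slab of the smaller index set
  have h5 : ∀ e, ∀ v : ℝ, (∀ z ∈ P e, |F (me e) z - v| ≤ ε) → ∀ z ∈ P e, Slb F k J s τ z →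
      Slb F k (J.erase (me e)) (s - k (me e) * v) (τf (me e)) z := by
    intro e v hv z hz hsl
    unfold Slb at hsl ⊢
    have h6 := Finset.sum_erase_add J (fun m => k m * F m z) (hPJ e z hz)
    have h7 : ∑ m ∈ J.erase (me e), k m * F m z - (s - k (me e) * v)
        = (∑ m ∈ J, k m * F m z - s) - k (me e) * (F (me e) z - v) := by
      rw [← h6]; ring
    rw [h7]
    refine (abs_sub _ _).trans ?_
    rw [abs_mul]
    have h8 : |k (me e)| * |F (me e) z - v| ≤ K * ε :=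
      mul_le_mul (hK _) (hv z hz) (abs_nonneg _) hK0.le
    have h9 := hτ' (me e) (hPJ e z hz)
    linarith
  -- selection
  let St : Z → Prop := fun z => ∀ e, z ∉ P e
  have hSt : ∀ z, ¬ St z → ∃ e, z ∈ P e ∧ ∀ e' < e, z ∉ P e' := by
    intro z hz
    have hz' : ∃ e, z ∈ P e := by
      by_contra h
      exact hz fun e he => h ⟨e, he⟩
    exact ⟨Nat.find hz', Nat.find_spec hz', fun e' he' => Nat.find_min hz' he'⟩
  let sel : Z → ℕ := fun z => if h : St z then 0 else (hSt z h).choose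
  have hsel : ∀ z e, z ∈ P e → (∀ e' < e, z ∉ P e') → sel z = e := by
    intro z e he hlt
    have h : ¬ St z := fun h => h e he
    simp only [sel, dif_neg h]
    have h6 := (hSt z h).choose_spec
    rcases lt_trichotomy (hSt z h).choose e with h7 | h7 | h7
    · exact absurd h6.1 (hlt _ h7)
    · exact h7
    · exact absurd he (h6.2 _ h7)
  have hselP : ∀ z, ¬ St z → z ∈ P (sel z) ∧ ∀ e' < sel z, z ∉ P e' := by
    intro z h
    simp only [sel, dif_neg h]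
    exact (hSt z h).choose_spec
  let c' : Z → ℕ := fun z => Nat.pair (sel z) (cc (sel z) z)
  -- local constancy of c'
  have hc'1 : ∀ z, ¬ St z → Slb F k J s τ z → ∃ O ∈ 𝓝 z, ∃ δ : ℝ, 0 < δ ∧ ∀ z' ∈ O,
      Slb F k J s τ z' → (∀ m ∈ J, |F m z' - F m z| < δ) → ¬ St z' ∧ c' z' = c' z := by
    intro z hz hsl
    obtain ⟨h6, h7⟩ := hselP z hz
    obtain ⟨v, hv, hg⟩ := hcc (sel z) ⟨z, h6⟩
    obtain ⟨O1, hO1, δ, hδ, h8⟩ := hg.1 z (h5 _ v hv z h6 hsl)
    refine ⟨O1 ∩ _, Filter.inter_mem hO1 (find_const P hPc z (sel z) h6 h7), δ, hδ, ?_⟩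
    rintro z' ⟨hz'1, hz'2, hz'3⟩ hsl' hcl
    have h9 : sel z' = sel z := hsel z' (sel z) hz'2 hz'3
    refine ⟨fun h => h _ hz'2, ?_⟩
    simp only [c', h9]
    rw [h8 z' hz'1 (h5 _ v hv z' hz'2 hsl') fun m hm => hcl m (Finset.mem_of_mem_erase hm)]
  have hc'2 : ∀ z z', ¬ St z → ¬ St z' → Slb F k J s τ z → Slb F k J s τ z' → c' z = c' z' →
      ∀ m ∈ J, |F m z - F m z'| ≤ η / 4 := by
    intro z z' hz hz' hsl hsl' heq m hm
    simp only [c', Nat.pair_eq_pair] at heq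
    obtain ⟨h6, h7⟩ := heq
    obtain ⟨h8, _⟩ := hselP z hz
    obtain ⟨h8', _⟩ := hselP z' hz'
    rw [← h6] at h8' h7
    obtain ⟨v, hv, hg⟩ := hcc (sel z) ⟨z, h8⟩
    by_cases h9 : m = me (sel z)
    · rw [h9]; exact (hPo _ z h8 z' h8').trans hε2
    · exact hg.2 z z' (h5 _ v hv z h8 hsl) (h5 _ v hv z' h8' hsl') h7 m
        (Finset.mem_erase.mpr ⟨h9, hm⟩)
  -- the stuck points of the slab have the same values
  have hst : ∀ z z', St z → St z' → Slb F k J s τ z → Slb F k J s τ z' → ∀ m ∈ J, F m z = F m z' := by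
    intro z z' hz hz' hsl hsl'
    refine hμ z z' hz hz' ?_
    unfold Slb at hsl hsl'
    rw [abs_le] at hsl hsl'
    rw [abs_lt]
    constructor <;> linarith [hsl.1, hsl.2, hsl'.1, hsl'.2]
  -- near a stuck point
  let Near : Z → Prop := fun z => ∃ z0, St z0 ∧ Slb F k J s τ z0 ∧ ∀ m ∈ J, |F m z - F m z0| ≤ η / 4
  let Zr : Z → Prop := fun z => St z ∨ ∃ z'', ¬ St z'' ∧ Slb F k J s τ z'' ∧ c' z'' = c' z ∧ Near z''
  let c : Z → ℕ := fun z => if Zr z then 0 else 1 + c' z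
  refine ⟨c, ?_, ?_⟩
  · intro z hsl
    by_cases hz : St z
    · refine ⟨Set.univ, Filter.univ_mem, η / 4, by linarith, fun z' _ hsl' hcl => ?_⟩
      have h6 : Zr z := Or.inl hz
      have h7 : Zr z' := by
        by_cases hz' : St z'
        · exact Or.inl hz'
        · exact Or.inr ⟨z', hz', hsl', rfl, z, hz, hsl, fun m hm => (hcl m hm).le⟩
      simp only [c, if_pos h6, if_pos h7]
    · obtain ⟨O1, hO1, δ, hδ, h8⟩ := hc'1 z hz hsl
      refine ⟨O1, hO1, δ, hδ, fun z' hz'1 hsl' hcl => ?_⟩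
      obtain ⟨h9, h10⟩ := h8 z' hz'1 hsl' hcl
      have h11 : Zr z' ↔ Zr z := by
        simp only [Zr, h9, hz, false_or, h10]
      simp only [c, h10, h11]
  · intro z z' hsl hsl' heq m hm
    by_cases hz : Zr z
    · have hz' : Zr z' := by
        by_contra hz'
        simp only [c, if_pos hz, if_neg hz'] at heq
        omega
      have key : ∀ y, Zr y → Slb F k J s τ y → ∃ z0, St z0 ∧ Slb F k J s τ z0 ∧
          |F m y - F m z0| ≤ η / 2 := by
        intro y hy hsly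
        by_cases hy' : St y
        · exact ⟨y, hy', hsly, by simp; linarith⟩
        · rcases hy with hy | ⟨z'', h1, h2, h3, z0, h4, h5, h6⟩
          · exact absurd hy hy'
          · refine ⟨z0, h4, h5, ?_⟩
            have h7 := hc'2 z'' y h1 hy' h2 hsly h3 m hm
            have h8 := h6 m hm
            rw [abs_le] at h7 h8 ⊢
            constructor <;> linarith [h7.1, h7.2, h8.1, h8.2]
      obtain ⟨z0, h1, h2, h3⟩ := key z hz hsl
      obtain ⟨z0', h1', h2', h3'⟩ := key z' hz' hsl'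
      have h4 := hst z0 z0' h1 h1' h2 h2' m hm
      rw [h4] at h3
      rw [abs_le] at h3 h3' ⊢
      constructor <;> linarith [h3.1, h3.2, h3'.1, h3'.2]
    · have hz' : ¬ Zr z' := by
        intro hz'
        simp only [c, if_neg hz, if_pos hz'] at heq
        omega
      simp only [c, if_neg hz, if_neg hz'] at heq
      have h6 : ¬ St z := fun h => hz (Or.inl h)
      have h6' : ¬ St z' := fun h => hz' (Or.inl h)
      exact (hc'2 z z' h6 h6' hsl hsl' (by omega) m hm).trans (by linarith)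

theorem slab_all {Z : Type} [TopologicalSpace Z] {n : ℕ} (F : Fin n → Z → ℝ) (k : Fin n → ℝ)
    (hT : ∀ m, Tame (F m)) (hk : LinearIndependent ℚ k) (r : ℕ) : ∀ J : Finset (Fin n),
    J.card = r → SLJ F k J := by
  induction r with
  | zero =>
    intro J hJ
    rw [Finset.card_eq_zero] at hJ
    subst hJ
    intro η _
    refine ⟨1, one_pos, fun s => ⟨fun _ => 0, ?_, ?_⟩⟩
    · intro z _
      exact ⟨Set.univ, Filter.univ_mem, 1, one_pos, fun _ _ _ _ => rfl⟩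
    · intro z z' _ _ _ m hm
      simp at hm
  | succ r ih =>
    intro J hJ
    refine slab_step F k hT hk J (Finset.card_pos.mp (by omega)) fun m hm => ih _ ?_
    rw [Finset.card_erase_of_mem hm]; omega

theorem cos_slab : SLABStmt := by
  intro Z _ n F k hT hk η hη
  obtain ⟨τ, hτ, h⟩ := slab_all F k hT hk _ Finset.univ rfl η hη
  refine ⟨τ, hτ, fun s => ?_⟩
  obtain ⟨c, h1, h2⟩ := h s
  refine ⟨c, ?_, ?_⟩
  · intro z hz
    obtain ⟨O, hO, δ, hδ, h3⟩ := h1 z hz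
    exact ⟨O, hO, δ, hδ, fun z' hz' hs hcl => h3 z' hz' hs fun m _ => hcl m⟩
  · intro z z' hz hz' heq m
    exact h2 z z' hz hz' heq m (Finset.mem_univ m)

end Pool.Agent.H55.Cos2
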