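import Mathlib

/-!
Tree systems (Kuratowski type functions).
-/

namespace Pool.Agent.H55.Cos2

open Set Filter Topology

/-- A tree system on a space `Y`: clopen cells `C s` indexed by finite sequences (newest entry first),
the children `C (n :: s)` of a cell are disjoint and converge to the node `w s`. -/
structure TreeSys (Y : Type) [TopologicalSpace Y] where
  C : List ℕ → Set Y
  w : List ℕ → Y
  C_nil : C [] = Set.univ
  clopen : ∀ s, IsClopen (C s)
  sub : ∀ n s, C (n :: s) ⊆ C s
  disj : ∀ s n m, n ≠ m → Disjoint (C (n :: s)) (C (m :: s))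
  w_mem : ∀ s, w s ∈ C s
  w_not : ∀ n s, w s ∉ C (n :: s)
  conv : ∀ s, ∀ O ∈ 𝓝 (w s), ∀ᶠ n in atTop, C (n :: s) ⊆ O

/-- the value at the node `s`: `1/2` at the root, then `± 2^{-(length s + 2)}` for even / odd entries. -/
noncomputable def val : List ℕ → ℝ
  | [] => 1 / 2
  | (n :: s) => val s + (-1) ^ n * (1 / 2) ^ (s.length + 2)

namespace TreeSys

variable {Y : Type} [TopologicalSpace Y] (S : TreeSys Y)

open Classical in
/-- the longest address of `y` of length at most `k` -/
noncomputable def addr (y : Y) : ℕ → List ℕ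
  | 0 => []
  | (k + 1) => if h : ∃ n, y ∈ S.C (n :: addr y k) then h.choose :: addr y k else addr y k

/-- the Kuratowski type function of a tree system -/
noncomputable def f (y : Y) : ℝ := limUnder atTop (fun k => val (S.addr y k))

theorem addr_mem (y : Y) (k : ℕ) : y ∈ S.C (S.addr y k) := by
  induction k with
  | zero => simp [addr, S.C_nil]
  | succ k ih =>
    by_cases h : ∃ n, y ∈ S.C (n :: S.addr y k)
    · rw [addr, dif_pos h]; exact h.choose_spec
    · rw [addr, dif_neg h]; exact ih

theorem addr_length_le (y : Y) (k : ℕ) : (S.addr y k).length ≤ k := by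
  induction k with
  | zero => simp [addr]
  | succ k ih =>
    by_cases h : ∃ n, y ∈ S.C (n :: S.addr y k)
    · rw [addr, dif_pos h]; simp; exact ih
    · rw [addr, dif_neg h]; omega

theorem unique_child {y : Y} {s : List ℕ} {n m : ℕ} (hn : y ∈ S.C (n :: s)) (hm : y ∈ S.C (m :: s)) :
    n = m := by
  by_contra h
  exact (Set.disjoint_left.mp (S.disj s n m h)) hn hm

/-- cells of the same depth containing the same point coincide -/
theorem unique_addr {y : Y} : ∀ {s t : List ℕ}, s.length = t.length → y ∈ S.C s → y ∈ S.C t → s = t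
  | [], [], _, _, _ => rfl
  | [], (_ :: _), h, _, _ => by simp at h
  | (_ :: _), [], h, _, _ => by simp at h
  | (n :: s), (m :: t), h, hs, ht => by
    have h1 : s = t := unique_addr (by simpa using h) (S.sub n s hs) (S.sub m t ht)
    subst h1
    rw [S.unique_child hs ht]

theorem addr_eq {y : Y} : ∀ {s : List ℕ}, y ∈ S.C s → S.addr y s.length = s
  | [], _ => by simp [addr]
  | (n :: s), hs => by
    have h1 : S.addr y s.length = s := addr_eq (S.sub n s hs)
    have h : ∃ m, y ∈ S.C (m :: S.addr y s.length) := ⟨n, by rw [h1]; exact hs⟩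
    show S.addr y (s.length + 1) = n :: s
    rw [addr, dif_pos h]
    have h3 : h.choose = n := S.unique_child h.choose_spec (by rw [h1]; exact hs)
    rw [h3, h1]

theorem addr_stop {y : Y} {k : ℕ} (h : ∀ n, y ∉ S.C (n :: S.addr y k)) :
    ∀ j, k ≤ j → S.addr y j = S.addr y k := by
  intro j hj
  induction j, hj using Nat.le_induction with
  | base => rfl
  | succ j _ ih =>
    have h' : ¬ ∃ n, y ∈ S.C (n :: S.addr y j) := by
      rintro ⟨n, hn⟩
      rw [ih] at hn
      exact h n hn
    rw [addr, dif_neg h', ih]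

theorem addr_length_of_cont {y : Y} {k : ℕ} (h : ∃ n, y ∈ S.C (n :: S.addr y k)) :
    (S.addr y k).length = k := by
  induction k with
  | zero => simp [addr]
  | succ k ih =>
    by_cases h' : ∃ n, y ∈ S.C (n :: S.addr y k)
    · rw [addr, dif_pos h']
      simp [ih h']
    · exfalso
      have h2 : S.addr y (k + 1) = S.addr y k := by rw [addr, dif_neg h']
      rw [h2] at h
      exact h' h

theorem step_val (y : Y) (k : ℕ) :
    |val (S.addr y (k + 1)) - val (S.addr y k)| ≤ (1 / 2) ^ (k + 2) := by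
  by_cases h : ∃ n, y ∈ S.C (n :: S.addr y k)
  · have hl := S.addr_length_of_cont h
    rw [addr, dif_pos h]
    simp only [val, hl]
    have : |val (S.addr y k) + (-1) ^ h.choose * (1 / 2) ^ (k + 2) - val (S.addr y k)|
        = (1 / 2 : ℝ) ^ (k + 2) := by
      rw [add_sub_cancel_left, abs_mul, abs_pow, abs_neg, abs_one, one_pow, one_mul,
        abs_of_nonneg (by positivity)]
    exact this.le
  · rw [addr, dif_neg h]
    simp

theorem dist_val (y : Y) (k : ℕ) : ∀ j, k ≤ j →
    |val (S.addr y j) - val (S.addr y k)| ≤ (1 / 2) ^ (k + 1) - (1 / 2) ^ (j + 1) := by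
  intro j hj
  induction j, hj using Nat.le_induction with
  | base => simp
  | succ j _ ih =>
    have h1 := S.step_val y j
    have h2 : val (S.addr y (j + 1)) - val (S.addr y k)
        = (val (S.addr y (j + 1)) - val (S.addr y j)) + (val (S.addr y j) - val (S.addr y k)) := by
      ring
    rw [h2]
    refine (abs_add_le _ _).trans ?_
    have h3 : (1 / 2 : ℝ) ^ (j + 1) = 2 * (1 / 2) ^ (j + 2) := by rw [pow_succ (1 / 2 : ℝ) (j + 1)]; ring
    have h4 : (1 / 2 : ℝ) ^ (j + 1 + 1) = (1 / 2) ^ (j + 2) := rfl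
    rw [h4]
    linarith

theorem cauchy (y : Y) : CauchySeq (fun k => val (S.addr y k)) := by
  rw [Metric.cauchySeq_iff']
  intro ε hε
  obtain ⟨k, hk⟩ := exists_pow_lt_of_lt_one hε (by norm_num : (1 / 2 : ℝ) < 1)
  refine ⟨k, fun j hj => ?_⟩
  rw [Real.dist_eq]
  refine lt_of_le_of_lt (S.dist_val y k j hj) ?_
  have : (1 / 2 : ℝ) ^ (k + 1) ≤ (1 / 2) ^ k := pow_le_pow_of_le_one (by norm_num) (by norm_num) (by omega)
  have : (0 : ℝ) < (1 / 2) ^ (j + 1) := by positivity
  linarith

theorem tendsto_f (y : Y) : Tendsto (fun k => val (S.addr y k)) atTop (𝓝 (S.f y)) :=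
  (S.cauchy y).tendsto_limUnder

/-- the function is close to the node value in a cell -/
theorem f_close {y : Y} {s : List ℕ} (h : y ∈ S.C s) : |S.f y - val s| ≤ (1 / 2) ^ (s.length + 1) := by
  have h1 : Tendsto (fun k => |val (S.addr y k) - val s|) atTop (𝓝 |S.f y - val s|) :=
    ((S.tendsto_f y).sub_const _).abs
  refine le_of_tendsto h1 ?_
  filter_upwards [eventually_ge_atTop s.length] with k hk
  have h2 := S.dist_val y s.length k hk
  rw [S.addr_eq h] at h2
  have : (0 : ℝ) < (1 / 2) ^ (k + 1) := by positivity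
  linarith

/-- outside the children the function equals the node value -/
theorem f_eq {y : Y} {s : List ℕ} (h : y ∈ S.C s) (h' : ∀ n, y ∉ S.C (n :: s)) : S.f y = val s := by
  have h1 : ∀ n, y ∉ S.C (n :: S.addr y s.length) := by rw [S.addr_eq h]; exact h'
  have h2 := S.addr_stop h1
  have h3 : Tendsto (fun k => val (S.addr y k)) atTop (𝓝 (val s)) := by
    refine Tendsto.congr' ?_ tendsto_const_nhds
    filter_upwards [eventually_ge_atTop s.length] with k hk
    rw [h2 k hk, S.addr_eq h]
  exact tendsto_nhds_unique (S.tendsto_f y) h3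

theorem f_node (s : List ℕ) : S.f (S.w s) = val s := S.f_eq (S.w_mem s) (fun n => S.w_not n s)

theorem f_mem (y : Y) : 0 ≤ S.f y ∧ S.f y ≤ 1 := by
  have h := S.f_close (y := y) (s := []) (by rw [S.C_nil]; trivial)
  simp only [val, List.length_nil, zero_add, pow_one] at h
  rw [abs_le] at h
  constructor <;> linarith [h.1, h.2]

/-- in an even child the function is at least the node value -/
theorem f_even {y : Y} {s : List ℕ} {n : ℕ} (hn : Even n) (h : y ∈ S.C (n :: s)) : val s ≤ S.f y := by
  have h1 := S.f_close h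
  rw [abs_le] at h1
  have h2 : val (n :: s) = val s + (1 / 2) ^ (s.length + 2) := by
    simp only [val]; rw [hn.neg_one_pow, one_mul]
  rw [h2] at h1
  have h3 : ((n :: s).length + 1) = s.length + 2 := by simp
  rw [h3] at h1
  linarith [h1.1]

theorem f_odd {y : Y} {s : List ℕ} {n : ℕ} (hn : Odd n) (h : y ∈ S.C (n :: s)) : S.f y ≤ val s := by
  have h1 := S.f_close h
  rw [abs_le] at h1
  have h2 : val (n :: s) = val s - (1 / 2) ^ (s.length + 2) := by
    simp only [val]; rw [hn.neg_one_pow]; ring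
  rw [h2] at h1
  have h3 : ((n :: s).length + 1) = s.length + 2 := by simp
  rw [h3] at h1
  linarith [h1.2]

/-- bracket property: near the lower end of the label of `s` the predicate `P` holds,
near the upper end the predicate `Q` -/
def BR (P Q : Y → Prop) (s : List ℕ) : Prop :=
  ∃ η > 0, (∀ y ∈ S.C s, S.f y < val s - (1 / 2) ^ (s.length + 1) + η → P y) ∧
    (∀ y ∈ S.C s, val s + (1 / 2) ^ (s.length + 1) - η < S.f y → Q y)

/-- `P` holds in a fine neighbourhood of the node `s` -/
def NB (P : Y → Prop) (s : List ℕ) : Prop :=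
  ∃ N ∈ 𝓝 (S.w s), ∃ η > 0, ∀ y ∈ N, |S.f y - val s| < η → P y

/-- step: `P` at the node, go up -/
theorem br_up {P P' Q : Y → Prop} {s : List ℕ} (h : S.BR P Q s) (h' : S.NB P' s) :
    ∀ᶠ n in atTop, Even n → S.BR P' Q (n :: s) := by
  obtain ⟨η, hη, _, h2⟩ := h
  obtain ⟨N, hN, η', hη', h3⟩ := h'
  filter_upwards [S.conv s N hN] with n hn he
  have hv : val (n :: s) = val s + (1 / 2) ^ (s.length + 2) := by
    simp only [val]; rw [he.neg_one_pow, one_mul]
  have hl : ((n :: s).length + 1) = s.length + 2 := by simp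
  have hp : (1 / 2 : ℝ) ^ (s.length + 1) = 2 * (1 / 2) ^ (s.length + 2) := by
    rw [pow_succ (1 / 2 : ℝ) (s.length + 1)]; ring
  refine ⟨min η η', lt_min hη hη', ?_, ?_⟩
  · intro y hy hlt
    rw [hv, hl] at hlt
    refine h3 y (hn hy) ?_
    have h4 := S.f_even he hy
    have h5 := min_le_right η η'
    rw [abs_of_nonneg (by linarith)]
    linarith
  · intro y hy hlt
    rw [hv, hl] at hlt
    refine h2 y (S.sub n s hy) ?_
    have h5 := min_le_left η η'
    rw [hp]
    linarith

/-- step: `Q` at the node, go down -/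
theorem br_down {P Q Q' : Y → Prop} {s : List ℕ} (h : S.BR P Q s) (h' : S.NB Q' s) :
    ∀ᶠ n in atTop, Odd n → S.BR P Q' (n :: s) := by
  obtain ⟨η, hη, h2, _⟩ := h
  obtain ⟨N, hN, η', hη', h3⟩ := h'
  filter_upwards [S.conv s N hN] with n hn he
  have hv : val (n :: s) = val s - (1 / 2) ^ (s.length + 2) := by
    simp only [val]; rw [he.neg_one_pow]; ring
  have hl : ((n :: s).length + 1) = s.length + 2 := by simp
  have hp : (1 / 2 : ℝ) ^ (s.length + 1) = 2 * (1 / 2) ^ (s.length + 2) := by
    rw [pow_succ (1 / 2 : ℝ) (s.length + 1)]; ring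
  refine ⟨min η η', lt_min hη hη', ?_, ?_⟩
  · intro y hy hlt
    rw [hv, hl] at hlt
    refine h2 y (S.sub n s hy) ?_
    have h5 := min_le_left η η'
    rw [hp]
    linarith
  · intro y hy hlt
    rw [hv, hl] at hlt
    refine h3 y (hn hy) ?_
    have h4 := S.f_odd he hy
    have h5 := min_le_right η η'
    rw [abs_of_nonpos (by linarith)]
    linarith

theorem br_mono {P P' Q Q' : Y → Prop} {s : List ℕ} (h : S.BR P Q s) (hP : ∀ y ∈ S.C s, P y → P' y)
    (hQ : ∀ y ∈ S.C s, Q y → Q' y) : S.BR P' Q' s := by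
  obtain ⟨η, hη, h1, h2⟩ := h
  exact ⟨η, hη, fun y hy h => hP y hy (h1 y hy h), fun y hy h => hQ y hy (h2 y hy h)⟩

theorem sub_append (r s : List ℕ) : S.C (r ++ s) ⊆ S.C s := by
  induction r with
  | nil => simp
  | cons n r ih => exact (S.sub n (r ++ s)).trans ih

theorem _root_.Pool.Agent.H55.Cos2.val_low (s : List ℕ) (j : ℕ) :
    val (List.replicate j 1 ++ s) = val s - (1 / 2) ^ (s.length + 1) + (1 / 2) ^ (s.length + 1 + j) := by
  induction j with
  | zero => simp
  | succ j ih =>
    rw [List.replicate_succ, List.cons_append]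
    simp only [val, ih, List.length_append, List.length_replicate]
    have h1 : j + s.length + 2 = s.length + 1 + (j + 1) := by omega
    have h2 : (1 / 2 : ℝ) ^ (s.length + 1 + j) = 2 * (1 / 2) ^ (s.length + 1 + (j + 1)) := by
      rw [← add_assoc, pow_succ (1 / 2 : ℝ) (s.length + 1 + j)]; ring
    rw [h1, h2]
    ring

theorem _root_.Pool.Agent.H55.Cos2.val_high (s : List ℕ) (j : ℕ) :
    val (List.replicate j 0 ++ s) = val s + (1 / 2) ^ (s.length + 1) - (1 / 2) ^ (s.length + 1 + j) := by
  induction j with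
  | zero => simp
  | succ j ih =>
    rw [List.replicate_succ, List.cons_append]
    simp only [val, ih, List.length_append, List.length_replicate]
    have h1 : j + s.length + 2 = s.length + 1 + (j + 1) := by omega
    have h2 : (1 / 2 : ℝ) ^ (s.length + 1 + j) = 2 * (1 / 2) ^ (s.length + 1 + (j + 1)) := by
      rw [← add_assoc, pow_succ (1 / 2 : ℝ) (s.length + 1 + j)]; ring
    rw [h1, h2]
    ring

/-- the lower end of a bracket contains a node -/
theorem br_low {P Q : Y → Prop} {s : List ℕ} (h : S.BR P Q s) : ∃ r : List ℕ, P (S.w (r ++ s)) := by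
  obtain ⟨η, hη, h1, _⟩ := h
  obtain ⟨j, hj⟩ := exists_pow_lt_of_lt_one hη (by norm_num : (1 / 2 : ℝ) < 1)
  refine ⟨List.replicate j 1, h1 _ (S.sub_append _ _ (S.w_mem _)) ?_⟩
  rw [S.f_node, val_low]
  have : (1 / 2 : ℝ) ^ (s.length + 1 + j) ≤ (1 / 2) ^ j :=
    pow_le_pow_of_le_one (by norm_num) (by norm_num) (by omega)
  linarith

theorem br_high {P Q : Y → Prop} {s : List ℕ} (h : S.BR P Q s) : ∃ r : List ℕ, Q (S.w (r ++ s)) := by
  obtain ⟨η, hη, _, h1⟩ := h
  obtain ⟨j, hj⟩ := exists_pow_lt_of_lt_one hη (by norm_num : (1 / 2 : ℝ) < 1)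
  refine ⟨List.replicate j 0, h1 _ (S.sub_append _ _ (S.w_mem _)) ?_⟩
  rw [S.f_node, val_high]
  have : (1 / 2 : ℝ) ^ (s.length + 1 + j) ≤ (1 / 2) ^ j :=
    pow_le_pow_of_le_one (by norm_num) (by norm_num) (by omega)
  linarith

/-- cells of larger depth around the same point are smaller -/
theorem sub_of_le {y : Y} {s t : List ℕ} (hl : s.length ≤ t.length) (hs : y ∈ S.C s) (ht : y ∈ S.C t) :
    S.C t ⊆ S.C s := by
  have h1 : t = t.take (t.length - s.length) ++ t.drop (t.length - s.length) :=
    (List.take_append_drop _ _).symm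
  have h2 : S.C t ⊆ S.C (t.drop (t.length - s.length)) := by
    conv_lhs => rw [h1]
    exact S.sub_append _ _
  have h3 : s = t.drop (t.length - s.length) :=
    S.unique_addr (by rw [List.length_drop]; omega) hs (h2 ht)
  rw [← h3] at h2
  exact h2

/-- a property of nodes which can always be passed to a child holds along a branch with a limit point -/
theorem branch [CompactSpace Y] (G : List ℕ → Prop) (s0 : List ℕ) (h0 : G s0)
    (hs : ∀ s, G s → ∃ n, G (n :: s)) :
    ∃ x ∈ S.C s0, ∀ k : ℕ, ∃ s : List ℕ, k ≤ s.length ∧ G s ∧ x ∈ S.C s := by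
  classical
  choose! nx hnx using hs
  let b : ℕ → List ℕ := fun k => Nat.rec s0 (fun _ s => nx s :: s) k
  have hb0 : b 0 = s0 := rfl
  have hbs : ∀ k, b (k + 1) = nx (b k) :: b k := fun k => rfl
  have hG : ∀ k, G (b k) := by
    intro k
    induction k with
    | zero => exact h0
    | succ k ih => rw [hbs]; exact hnx _ ih
  have hlen : ∀ k, k ≤ (b k).length := by
    intro k
    induction k with
    | zero => exact Nat.zero_le _
    | succ k ih => rw [hbs, List.length_cons]; omega
  have hne : (⋂ k, S.C (b k)).Nonempty := by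
    refine IsCompact.nonempty_iInter_of_sequence_nonempty_isCompact_isClosed (fun k => S.C (b k))
      (fun k => ?_) (fun k => ⟨_, S.w_mem _⟩) (S.clopen _).1.isCompact (fun k => (S.clopen _).1)
    show S.C (b (k + 1)) ⊆ S.C (b k)
    rw [hbs]; exact S.sub _ _
  obtain ⟨x, hx⟩ := hne
  rw [Set.mem_iInter] at hx
  exact ⟨x, hb0 ▸ hx 0, fun k => ⟨b k, hlen k, hG k, hx k⟩⟩

end TreeSys

/-- tame functions: for every `ε`, outside countably many disjoint clopen cells of oscillation at most
`ε` only finitely many rational values are taken -/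
def Tame {Z : Type} [TopologicalSpace Z] (F : Z → ℝ) : Prop :=
  ∀ ε : ℝ, 0 < ε → ∃ (V : Finset ℚ) (O : ℕ → Set Z),
    (∀ i, IsClopen (O i)) ∧ (∀ i j, i ≠ j → Disjoint (O i) (O j)) ∧
    (∀ i, ∀ z ∈ O i, ∀ z' ∈ O i, |F z - F z'| ≤ ε) ∧
    ∀ z, (∀ i, z ∉ O i) → ∃ q ∈ V, F z = (q : ℝ)

end Pool.Agent.H55.Cos2
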