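import Pool.Agent.H55.Cos2.Stmts

/-!
WEI: choice of the weights.
-/

namespace Pool.Agent.H55.Cos2

open Set Filter Topology

/-- recursion on all previous values -/
noncomputable def seqOf (nx : (n : ℕ) → (Fin n → ℝ) → ℝ) (n : ℕ) : ℝ :=
  nx n (fun i : Fin n => seqOf nx i.1)
termination_by n
decreasing_by exact i.2

theorem exists_seqOf (P : (n : ℕ) → (Fin n → ℝ) → ℝ → Prop) (h : ∀ n b, ∃ x, P n b x) :
    ∃ a : ℕ → ℝ, ∀ n, P n (fun i : Fin n => a i) (a n) := by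
  choose nx hnx using h
  refine ⟨seqOf nx, fun n => ?_⟩
  have h1 := hnx n (fun i : Fin n => seqOf nx i.1)
  have h2 : seqOf nx n = nx n (fun i : Fin n => seqOf nx i.1) := by rw [seqOf]
  rw [← h2] at h1
  exact h1

/-- the weights on `Fin n` -/
noncomputable def wtf {n : ℕ} (l : Option (Fin n)) (i : Fin n) : ℝ := if l = some i then 2 else 1

theorem li_wtf {n : ℕ} (l : Option (Fin n)) {a : Fin n → ℝ} (h : LinearIndependent ℚ a) :
    LinearIndependent ℚ (fun i => wtf l i * a i) := by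
  have h1 := h.units_smul (fun i => if l = some i then Units.mk0 (2 : ℚ) (by norm_num) else 1)
  convert h1 using 2 with i
  simp only [wtf, Pi.smul_apply']
  split_ifs with h2
  · rw [Units.smul_def]; simp [Rat.smul_def]
  · simp

theorem countable_span {n : ℕ} (b : Fin n → ℝ) :
    ((Submodule.span ℚ (Set.range b) : Submodule ℚ ℝ) : Set ℝ).Countable := by
  have h1 := Fintype.range_linearCombination (R := ℚ) (v := b)
  rw [← h1, LinearMap.coe_range]
  exact Set.countable_range _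

open Classical in
/-- the constant of the slab lemma -/
noncomputable def TAU {Z : Type} [TopologicalSpace Z] (h : SLABStmt) (F : ℕ → Z → ℝ)
    (hF : ∀ m, Tame (F m)) (n : ℕ) (k : Fin n → ℝ) (η : ℝ) : ℝ :=
  if H : LinearIndependent ℚ k ∧ 0 < η then
    (h Z n (fun i => F i) k (fun i => hF i) H.1 η H.2).choose else 1

theorem TAU_pos {Z : Type} [TopologicalSpace Z] (h : SLABStmt) (F : ℕ → Z → ℝ)
    (hF : ∀ m, Tame (F m)) (n : ℕ) (k : Fin n → ℝ) (η : ℝ) : 0 < TAU h F hF n k η := by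
  unfold TAU
  split_ifs with H
  · exact (h Z n (fun i => F i) k (fun i => hF i) H.1 η H.2).choose_spec.1
  · norm_num

theorem TAU_spec {Z : Type} [TopologicalSpace Z] (h : SLABStmt) (F : ℕ → Z → ℝ)
    (hF : ∀ m, Tame (F m)) (n : ℕ) (k : Fin n → ℝ) (η : ℝ) (h1 : LinearIndependent ℚ k)
    (h2 : 0 < η) : ∀ s : ℝ, ∃ c : Z → ℕ,
    (∀ z, |∑ m : Fin n, k m * F m z - s| ≤ TAU h F hF n k η → ∃ O ∈ 𝓝 z, ∃ δ : ℝ, 0 < δ ∧
      ∀ z' ∈ O, |∑ m : Fin n, k m * F m z' - s| ≤ TAU h F hF n k η →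
        (∀ m : Fin n, |F m z' - F m z| < δ) → c z' = c z) ∧
    (∀ z z', |∑ m : Fin n, k m * F m z - s| ≤ TAU h F hF n k η →
      |∑ m : Fin n, k m * F m z' - s| ≤ TAU h F hF n k η → c z = c z' →
        ∀ m : Fin n, |F m z - F m z'| ≤ η) := by
  unfold TAU
  rw [dif_pos ⟨h1, h2⟩]
  exact (h Z n (fun i => F i) k (fun i => hF i) h1 η h2).choose_spec.2

theorem li_of_notMem (a : ℕ → ℝ)
    (h : ∀ n, a n ∉ Submodule.span ℚ (Set.range (fun i : Fin n => a i))) (n : ℕ) :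
    LinearIndependent ℚ (fun i : Fin n => a i) := by
  induction n with
  | zero => exact linearIndependent_empty_type
  | succ n ih =>
    rw [linearIndependent_finSucc']
    exact ⟨ih, h n⟩

/-- one choice in the recursion -/
theorem wei_step {Z : Type} [TopologicalSpace Z] (h : SLABStmt) (F : ℕ → Z → ℝ)
    (hF : ∀ m, Tame (F m)) (m : ℕ) (b : Fin m → ℝ) : ∃ x : ℝ, 0 < x ∧
    x ∉ Submodule.span ℚ (Set.range b) ∧ x ≤ (1 / 2) ^ m ∧
    ∀ N : Fin m, ∀ l : Option (Fin (N.1 + 1)), x ≤ (1 / 2) ^ (m - N.1) *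
      (TAU h F hF (N.1 + 1) (fun i => wtf l i * b ⟨i.1, by omega⟩) (1 / ((N.1 : ℝ) + 1)) / 8) := by
  have e1 : ∀ y : ℝ, 0 < y → ∀ᶠ μ in 𝓝[>] (0 : ℝ), μ ≤ y := by
    intro y hy
    filter_upwards [Ioc_mem_nhdsGT hy] with μ hμ
    exact hμ.2
  have e2 : ∀ᶠ μ in 𝓝[>] (0 : ℝ), μ ≤ (1 / 2) ^ m ∧ ∀ N : Fin m, ∀ l : Option (Fin (N.1 + 1)),
      μ ≤ (1 / 2) ^ (m - N.1) *
      (TAU h F hF (N.1 + 1) (fun i => wtf l i * b ⟨i.1, by omega⟩) (1 / ((N.1 : ℝ) + 1)) / 8) := by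
    refine (e1 _ (by positivity)).and ?_
    rw [eventually_all]
    intro N
    rw [eventually_all]
    intro l
    refine e1 _ ?_
    have := TAU_pos h F hF (N.1 + 1) (fun i => wtf l i * b ⟨i.1, by omega⟩) (1 / ((N.1 : ℝ) + 1))
    positivity
  obtain ⟨μ, ⟨hμ1, hμ2⟩, hμ0⟩ := (e2.and self_mem_nhdsWithin).exists
  have hμ0' : (0 : ℝ) < μ := hμ0
  have h3 : ∃ x ∈ Ioo 0 μ, x ∉ ((Submodule.span ℚ (Set.range b) : Submodule ℚ ℝ) : Set ℝ) := by
    by_contra hcon
    push Not at hcon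
    have h4 : (Ioo 0 μ).Countable := (countable_span b).mono hcon
    rw [Cardinal.Real.Ioo_countable_iff] at h4
    linarith
  obtain ⟨x, hx, hx'⟩ := h3
  exact ⟨x, hx.1, hx', hx.2.le.trans hμ1, fun N l => hx.2.le.trans (hμ2 N l)⟩

theorem cos_wei (h : SLABStmt) : WEIStmt := by
  intro Z _ F hF hF1
  obtain ⟨a, ha⟩ := exists_seqOf _ (wei_step h F hF)
  have ha0 : ∀ m, 0 < a m := fun m => (ha m).1
  have ha1 : ∀ m, a m ≤ (1 / 2) ^ m := fun m => (ha m).2.2.1
  have hli := li_of_notMem a (fun n => (ha n).2.1)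
  have hsum : Summable a := Summable.of_nonneg_of_le (fun m => (ha0 m).le) ha1
    (summable_geometric_of_lt_one (by norm_num) (by norm_num))
  refine ⟨a, ha0, hsum, ?_⟩
  intro w hw s N
  -- the index from which on the weights are one
  obtain ⟨N', hN', l, hl, hw1⟩ : ∃ N' : ℕ, N ≤ N' ∧ ∃ l : Option (Fin (N' + 1)),
      (∀ i : Fin (N' + 1), w i = wtf l i) ∧ ∀ m, N' < m → w m = 1 := by
    rcases hw with hw | ⟨l, hw⟩
    · refine ⟨N, le_rfl, none, fun i => ?_, fun m _ => ?_⟩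
      · rw [hw]; simp [wtf]
      · rw [hw]
    · refine ⟨max N l, le_max_left _ _, some ⟨l, by omega⟩, fun i => ?_, fun m hm => ?_⟩
      · rw [hw]
        simp only [wtf, Option.some.injEq, Fin.ext_iff]
        simp only [eq_comm]
      · rw [hw]
        have : m ≠ l := by omega
        simp [this]
  have hw2 : ∀ m, |w m| ≤ 2 := by
    intro m
    rcases hw with hw | ⟨l, hw⟩
    · rw [hw]; norm_num
    · rw [hw]; dsimp only; split_ifs <;> norm_num
  set k : Fin (N' + 1) → ℝ := fun i => wtf l i * a i with hk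
  have hη : (0 : ℝ) < 1 / ((N' : ℝ) + 1) := by positivity
  set τ := TAU h F hF (N' + 1) k (1 / ((N' : ℝ) + 1)) with hτ
  have hτ0 : 0 < τ := TAU_pos _ _ _ _ _ _
  obtain ⟨c, hc1, hc2⟩ := TAU_spec h F hF (N' + 1) k (1 / ((N' : ℝ) + 1))
    (li_wtf l (hli (N' + 1))) hη s
  rw [← hτ] at hc1 hc2
  -- the tail
  have hslab : ∀ z, ∑' m, w m * a m * F m z = s → |∑ m : Fin (N' + 1), k m * F m z - s| ≤ τ := by
    intro z hz
    have hs1 : Summable (fun m => w m * a m * F m z) := by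
      refine Summable.of_norm_bounded (hsum.mul_left 2) ?_
      intro m
      rw [Real.norm_eq_abs, abs_mul, abs_mul, abs_of_pos (ha0 m)]
      have h1 := hF1 m z
      have h2 := hw2 m
      have h3 := ha0 m
      calc |w m| * a m * |F m z| ≤ |w m| * a m * 1 := by gcongr
        _ ≤ 2 * a m := by rw [mul_one]; gcongr
    have hs2 := hs1.sum_add_tsum_nat_add (N' + 1)
    rw [hz, Finset.sum_range] at hs2
    have hs3 : ∑ m : Fin (N' + 1), k m * F m z = ∑ i : Fin (N' + 1), w i * a i * F i z := by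
      refine Finset.sum_congr rfl fun i _ => ?_
      rw [hl i]
    have hs4 : ∑ m : Fin (N' + 1), k m * F m z - s
        = -∑' i, w (i + (N' + 1)) * a (i + (N' + 1)) * F (i + (N' + 1)) z := by
      rw [hs3]; linarith
    rw [hs4, abs_neg, ← Real.norm_eq_abs]
    have hg : HasSum (fun i : ℕ => (1 / 2 : ℝ) ^ i * (τ / 16)) (2 * (τ / 16)) :=
      hasSum_geometric_two.mul_right _
    refine (tsum_of_norm_bounded hg ?_).trans (by linarith)
    intro i
    rw [hw1 (i + (N' + 1)) (by omega), one_mul, Real.norm_eq_abs, abs_mul, abs_of_pos (ha0 _)]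
    have h1 := hF1 (i + (N' + 1)) z
    have h3 := ha0 (i + (N' + 1))
    have h4 := (ha (i + (N' + 1))).2.2.2 ⟨N', by omega⟩ l
    have h5 : i + (N' + 1) - N' = i + 1 := by omega
    dsimp only at h4
    rw [h5] at h4
    calc a (i + (N' + 1)) * |F (i + (N' + 1)) z| ≤ a (i + (N' + 1)) * 1 := by gcongr
      _ ≤ (1 / 2) ^ (i + 1) * (τ / 8) := by rw [mul_one]; exact h4
      _ = (1 / 2 : ℝ) ^ i * (τ / 16) := by rw [pow_succ]; ring
  refine ⟨N', c, ?_, ?_⟩
  · intro z hz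
    obtain ⟨O, hO, δ, hδ, h1⟩ := hc1 z (hslab z hz)
    refine ⟨O, hO, δ, hδ, fun z' hz' hs' hm => h1 z' hz' (hslab z' hs') fun m => hm m ?_⟩
    have := m.2
    omega
  · intro z z' hz hz' hcc m hm
    have h1 := hc2 z z' (hslab z hz) (hslab z' hz') hcc ⟨m, by omega⟩
    refine h1.trans ?_
    have h2 : (N : ℝ) ≤ N' := by exact_mod_cast hN'
    gcongr

end Pool.Agent.H55.Cos2
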