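import Pool.Agent.H55.Cos2.Stmts

/-!
`ZD` and `SZD` in terms of the subspace.
-/

namespace Pool.Agent.H55.Cos2

open Set Filter Topology

theorem zdx_szd_iff {M : Type} [TopologicalSpace M] (s : Set M) :
    SZD s ↔ ∀ P Q : Set s, IsClosed P → IsClosed Q → Disjoint P Q →
      ∃ C : Set s, IsClopen C ∧ P ⊆ C ∧ Disjoint Q C := by
  constructor
  · intro h P Q hP hQ hPQ
    obtain ⟨P', hP', rfl⟩ := isClosed_induced_iff.1 hP
    obtain ⟨Q', hQ', rfl⟩ := isClosed_induced_iff.1 hQ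
    obtain ⟨A, B, hA, hB, h1, h2, h3, h4⟩ := h P' Q' hP' hQ' (by
      ext x
      simp only [mem_inter_iff, mem_empty_iff_false, iff_false, not_and]
      intro hx hxs
      have hd := Set.disjoint_left.1 hPQ
      exact @hd ⟨x, hxs⟩ hx.1 hx.2)
    have hcompl : (Subtype.val ⁻¹' A : Set s)ᶜ = Subtype.val ⁻¹' B := by
      ext x
      simp only [mem_compl_iff, mem_preimage]
      constructor
      · intro hx
        exact (h3 x.2).resolve_left hx
      · intro hx hxA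
        have : x.1 ∈ A ∩ B ∩ s := ⟨⟨hxA, hx⟩, x.2⟩
        rw [h4] at this
        exact this
    refine ⟨Subtype.val ⁻¹' A, ⟨⟨?_⟩, hA.preimage continuous_subtype_val⟩, ?_, ?_⟩
    · rw [hcompl]
      exact hB.preimage continuous_subtype_val
    · intro x hx
      exact h1 ⟨hx, x.2⟩
    · rw [Set.disjoint_left]
      intro x hx hxA
      have : x ∈ (Subtype.val ⁻¹' A : Set s)ᶜ := by
        rw [hcompl]
        exact h2 ⟨hx, x.2⟩
      exact this hxA
  · intro h P Q hP hQ hPQ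
    obtain ⟨C, hC, h1, h2⟩ := h (Subtype.val ⁻¹' P) (Subtype.val ⁻¹' Q)
      (hP.preimage continuous_subtype_val) (hQ.preimage continuous_subtype_val) (by
        rw [Set.disjoint_left]
        intro x hx hx'
        have : x.1 ∈ P ∩ Q ∩ s := ⟨⟨hx, hx'⟩, x.2⟩
        rw [hPQ] at this
        exact this)
    obtain ⟨A, hA, hAC⟩ := isOpen_induced_iff.1 hC.2
    obtain ⟨B, hB, hBC⟩ := isOpen_induced_iff.1 hC.compl.2
    refine ⟨A, B, hA, hB, ?_, ?_, ?_, ?_⟩
    · rintro x ⟨hx, hxs⟩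
      have : (⟨x, hxs⟩ : s) ∈ C := h1 hx
      rw [← hAC] at this
      exact this
    · rintro x ⟨hx, hxs⟩
      have hd := Set.disjoint_left.1 h2
      have : (⟨x, hxs⟩ : s) ∈ Cᶜ := fun hxC => @hd ⟨x, hxs⟩ hx hxC
      rw [← hBC] at this
      exact this
    · intro x hxs
      by_cases hx : (⟨x, hxs⟩ : s) ∈ C
      · left
        rw [← hAC] at hx
        exact hx
      · right
        have : (⟨x, hxs⟩ : s) ∈ Cᶜ := hx
        rw [← hBC] at this
        exact this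
    · ext x
      simp only [mem_inter_iff, mem_empty_iff_false, iff_false]
      rintro ⟨⟨hxA, hxB⟩, hxs⟩
      have h5 : (⟨x, hxs⟩ : s) ∈ C := by
        rw [← hAC]
        exact hxA
      have h6 : (⟨x, hxs⟩ : s) ∈ Cᶜ := by
        rw [← hBC]
        exact hxB
      exact h6 h5

theorem zdx_zd_imp {M : Type} [TopologicalSpace M] {s : Set M} (h : ZD s) :
    ∀ (x : s) (O : Set s), IsOpen O → x ∈ O → ∃ C : Set s, IsClopen C ∧ x ∈ C ∧ C ⊆ O := by
  intro x O hO hx
  obtain ⟨O', hO', rfl⟩ := isOpen_induced_iff.1 hO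
  obtain ⟨A, B, hA, hB, h1, h2, h3, h4⟩ := h x.1 x.2 O' hO' hx
  have hcompl : (Subtype.val ⁻¹' A : Set s)ᶜ = Subtype.val ⁻¹' B := by
    ext x
    simp only [mem_compl_iff, mem_preimage]
    constructor
    · intro hx
      exact (h3 x.2).resolve_left hx
    · intro hx hxA
      have : x.1 ∈ A ∩ B ∩ s := ⟨⟨hxA, hx⟩, x.2⟩
      rw [h4] at this
      exact this
  refine ⟨Subtype.val ⁻¹' A, ⟨⟨?_⟩, hA.preimage continuous_subtype_val⟩, h1, ?_⟩
  · rw [hcompl]
    exact hB.preimage continuous_subtype_val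
  · intro y hy
    exact h2 ⟨hy, y.2⟩

theorem zdx_zd_mono {M : Type} [TopologicalSpace M] {s t : Set M} (h : ZD s) (hts : t ⊆ s) :
    ZD t := by
  intro x hx O hO hxO
  obtain ⟨A, B, hA, hB, h1, h2, h3, h4⟩ := h x (hts hx) O hO hxO
  refine ⟨A, B, hA, hB, h1, ?_, hts.trans h3, ?_⟩
  · rintro y ⟨hyA, hyt⟩
    exact h2 ⟨hyA, hts hyt⟩
  · ext y
    simp only [mem_inter_iff, mem_empty_iff_false, iff_false]
    rintro ⟨⟨hyA, hyB⟩, hyt⟩
    have : y ∈ A ∩ B ∩ s := ⟨⟨hyA, hyB⟩, hts hyt⟩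
    rw [h4] at this
    exact this

end Pool.Agent.H55.Cos2
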